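import Pool.Agent.NH53.SC.Defs

set_option autoImplicit false

/-!
# Supercharacters of the unitriangular group: orbit sums
-/

namespace Pool.Agent.NH53.SC
open Pool.Agent.W367.SN

variable {n : ℕ} {F : Type} [Field F]

theorem nil_val (g : unitri n F) : (nil g : Matrix (Fin n) (Fin n) F) =
    ((g : GL (Fin n) F) : Matrix (Fin n) (Fin n) F) - 1 := rfl

theorem conjN_val (u v : unitri n F) (y : strictUpper n F) :
    (conjN u v y : Matrix (Fin n) (Fin n) F) =
      ((u : GL (Fin n) F) : Matrix (Fin n) (Fin n) F) * y *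
        ((v : GL (Fin n) F) : Matrix (Fin n) (Fin n) F) := rfl

theorem conjN_conjN (u v u' v' : unitri n F) (y : strictUpper n F) :
    conjN u v (conjN u' v' y) = conjN (u * u') (v' * v) y := by
  apply Subtype.ext
  simp only [conjN_val, Subgroup.coe_mul, Units.val_mul, mul_assoc]

theorem conjN_one (y : strictUpper n F) : conjN 1 1 y = y := by
  apply Subtype.ext
  simp only [conjN_val, Subgroup.coe_one, Units.val_one, one_mul, mul_one]

theorem nil_one : nil (1 : unitri n F) = 0 := by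
  apply Subtype.ext
  rw [nil_val, Subgroup.coe_one, Units.val_one, sub_self]
  rfl

/-- `g ↦ g - 1` is a bijection. -/
noncomputable def nilEquiv : unitri n F ≃ strictUpper n F :=
  Equiv.ofBijective nil (by
    constructor
    · intro g h hgh
      have h1 : ((g : GL (Fin n) F) : Matrix (Fin n) (Fin n) F) - 1 =
          ((h : GL (Fin n) F) : Matrix (Fin n) (Fin n) F) - 1 := congrArg Subtype.val hgh
      exact Subtype.ext (Units.ext (sub_left_injective h1))
    · intro y
      obtain ⟨g, hg⟩ := isUnit_one_add y.2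
      refine ⟨⟨g, ?_⟩, ?_⟩
      · change (g : Matrix (Fin n) (Fin n) F) - 1 ∈ strictUpper n F
        rw [hg, add_sub_cancel_left]
        exact y.2
      · apply Subtype.ext
        rw [nil_val]
        change (g : Matrix (Fin n) (Fin n) F) - 1 = _
        rw [hg, add_sub_cancel_left])

theorem nilEquiv_apply (g : unitri n F) : nilEquiv g = nil g := rfl

theorem nil_inj {g h : unitri n F} (h1 : nil g = nil h) : g = h := nilEquiv.injective h1

theorem nil_eq_zero {g : unitri n F} : nil g = 0 ↔ g = 1 := by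
  constructor
  · intro h
    exact nil_inj (h.trans nil_one.symm)
  · rintro rfl
    exact nil_one

theorem nil_inv_mul (g h : unitri n F) : nil (h⁻¹ * g) = conjN h⁻¹ 1 (nil g - nil h) := by
  apply Subtype.ext
  rw [nil_val, conjN_val]
  have h1 : ((nil g - nil h : strictUpper n F) : Matrix (Fin n) (Fin n) F) =
    ((g : GL (Fin n) F) : Matrix (Fin n) (Fin n) F) -
      ((h : GL (Fin n) F) : Matrix (Fin n) (Fin n) F) := by
    change ((nil g : Matrix (Fin n) (Fin n) F) - (nil h : Matrix (Fin n) (Fin n) F)) = _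
    rw [nil_val, nil_val, sub_sub_sub_cancel_right]
  rw [h1, Subgroup.coe_one, Units.val_one, mul_one, mul_sub, Subgroup.coe_mul, Units.val_mul,
    Subgroup.coe_inv, ← Units.val_mul (h : GL (Fin n) F)⁻¹ (h : GL (Fin n) F), inv_mul_cancel,
    Units.val_one]

theorem nil_mul (g h : unitri n F) : nil (g * h) = nil g + conjN g 1 (nil h) := by
  apply Subtype.ext
  change ((g * h : unitri n F) : GL (Fin n) F).val - 1 = (nil g : Matrix (Fin n) (Fin n) F) +
    (conjN g 1 (nil h) : Matrix (Fin n) (Fin n) F)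
  rw [nil_val, conjN_val, nil_val, Subgroup.coe_one, Units.val_one, mul_one, Subgroup.coe_mul,
    Units.val_mul, mul_sub, mul_one]
  abel

theorem nil_mul' (g h : unitri n F) : nil (g * h) = conjN 1 h (nil g) + nil h := by
  apply Subtype.ext
  change ((g * h : unitri n F) : GL (Fin n) F).val - 1 =
    (conjN 1 h (nil g) : Matrix (Fin n) (Fin n) F) + (nil h : Matrix (Fin n) (Fin n) F)
  rw [nil_val, conjN_val, nil_val, Subgroup.coe_one, Units.val_one, one_mul, Subgroup.coe_mul,
    Units.val_mul, sub_mul, one_mul]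
  abel

theorem nil_conj (g u : unitri n F) : nil (u * g * u⁻¹) = conjN u u⁻¹ (nil g) := by
  apply Subtype.ext
  rw [nil_val, conjN_val, nil_val, Subgroup.coe_mul, Subgroup.coe_mul, Units.val_mul,
    Units.val_mul, Subgroup.coe_inv, mul_sub, sub_mul, mul_one, ← Units.val_mul
    (u : GL (Fin n) F) (u : GL (Fin n) F)⁻¹, mul_inv_cancel, Units.val_one]

/-! ### orbits of functionals -/

theorem comp_comp (μ : Module.Dual F (strictUpper n F)) (u v u' v' : unitri n F) :
    (μ ∘ₗ conjN u v) ∘ₗ conjN u' v' = μ ∘ₗ conjN (u * u') (v' * v) := by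
  ext y
  simp only [LinearMap.comp_apply, conjN_conjN]

theorem comp_one (μ : Module.Dual F (strictUpper n F)) : μ ∘ₗ conjN 1 1 = μ := by
  ext y
  simp only [LinearMap.comp_apply, conjN_one]

theorem mem_orb_self (μ : Module.Dual F (strictUpper n F)) : μ ∈ orb μ :=
  ⟨1, 1, (comp_one μ).symm⟩

theorem comp_mem_orb {μ ν : Module.Dual F (strictUpper n F)} (h : ν ∈ orb μ) (u v : unitri n F) :
    ν ∘ₗ conjN u v ∈ orb μ := by
  obtain ⟨u', v', rfl⟩ := h
  exact ⟨u' * u, v * v', by rw [comp_comp]⟩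

theorem orb_symm {μ ν : Module.Dual F (strictUpper n F)} (h : ν ∈ orb μ) : μ ∈ orb ν := by
  obtain ⟨u, v, rfl⟩ := h
  refine ⟨u⁻¹, v⁻¹, ?_⟩
  rw [comp_comp, mul_inv_cancel, inv_mul_cancel, comp_one]

theorem orb_trans {μ ν κ : Module.Dual F (strictUpper n F)} (h : ν ∈ orb μ) (h' : κ ∈ orb ν) :
    κ ∈ orb μ := by
  obtain ⟨u, v, rfl⟩ := h'
  exact comp_mem_orb h u v

theorem orb_eq {μ ν : Module.Dual F (strictUpper n F)} (h : ν ∈ orb μ) : orb ν = orb μ := by
  ext κ
  exact ⟨fun h' => orb_trans h h', fun h' => orb_trans (orb_symm h) h'⟩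

theorem orb_eq_iff {μ ν : Module.Dual F (strictUpper n F)} : orb ν = orb μ ↔ ν ∈ orb μ :=
  ⟨fun h => h ▸ mem_orb_self ν, orb_eq⟩

/-! ### finiteness -/

section fin
variable [Finite F]

instance : Finite (unitri n F) :=
  Finite.of_injective (fun g => (nil g : Matrix (Fin n) (Fin n) F)) fun _ _ h =>
    nil_inj (Subtype.ext h)

instance : Finite (Module.Dual F (strictUpper n F)) :=
  Finite.of_injective (fun μ => (μ : strictUpper n F → F)) DFunLike.coe_injective

noncomputable instance : Fintype (unitri n F) := Fintype.ofFinite _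
noncomputable instance : Fintype (strictUpper n F) := Fintype.ofFinite _
noncomputable instance : Fintype (Module.Dual F (strictUpper n F)) := Fintype.ofFinite _

/-- The orbit as a finite set. -/
noncomputable def orbF (μ : Module.Dual F (strictUpper n F)) :
    Finset (Module.Dual F (strictUpper n F)) := (Set.toFinite (orb μ)).toFinset

theorem mem_orbF {μ ν : Module.Dual F (strictUpper n F)} : ν ∈ orbF μ ↔ ν ∈ orb μ :=
  Set.Finite.mem_toFinset _

theorem orbSum_eq (θ : AddChar F ℂ) (μ : Module.Dual F (strictUpper n F)) (g : unitri n F) :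
    orbSum θ μ g = ∑ ν ∈ orbF μ, θ (ν (nil g)) := by
  unfold orbSum
  exact finsum_mem_eq_finite_toFinset_sum _ _

/-- Reindexing an orbit. -/
theorem sum_orbF_comp {M : Type} [AddCommMonoid M] (μ : Module.Dual F (strictUpper n F))
    (u v : unitri n F) (f : Module.Dual F (strictUpper n F) → M) :
    ∑ ν ∈ orbF μ, f (ν ∘ₗ conjN u v) = ∑ ν ∈ orbF μ, f ν := by
  refine Finset.sum_bij' (fun ν _ => ν ∘ₗ conjN u v) (fun ν _ => ν ∘ₗ conjN u⁻¹ v⁻¹) ?_ ?_ ?_ ?_ ?_
  · intro ν h
    rw [mem_orbF] at h ⊢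
    exact comp_mem_orb h u v
  · intro ν h
    rw [mem_orbF] at h ⊢
    exact comp_mem_orb h _ _
  · intro ν _
    rw [comp_comp, mul_inv_cancel, inv_mul_cancel, comp_one]
  · intro ν _
    rw [comp_comp, inv_mul_cancel, mul_inv_cancel, comp_one]
  · intro ν _
    rfl

theorem orbSum_super (θ : AddChar F ℂ) (μ : Module.Dual F (strictUpper n F)) (g h u v : unitri n F)
    (hg : nil g = conjN u v (nil h)) : orbSum θ μ g = orbSum θ μ h := by
  rw [orbSum_eq, orbSum_eq, hg]
  exact sum_orbF_comp μ u v (fun ν => θ (ν (nil h)))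

theorem orbSum_conj (θ : AddChar F ℂ) (μ : Module.Dual F (strictUpper n F)) (g u : unitri n F) :
    orbSum θ μ (u * g * u⁻¹) = orbSum θ μ g :=
  orbSum_super θ μ _ _ u u⁻¹ (nil_conj g u)

omit [Finite F] in
theorem orbSum_congr (θ : AddChar F ℂ) {μ ν : Module.Dual F (strictUpper n F)}
    (h : orb μ = orb ν) : orbSum θ μ = orbSum θ ν := by
  unfold orbSum
  rw [h]

/-- The key identity. -/
theorem orbSum_inv_mul (θ : AddChar F ℂ) (μ : Module.Dual F (strictUpper n F))
    (g h : unitri n F) :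
    orbSum θ μ (h⁻¹ * g) = ∑ ν ∈ orbF μ, θ (ν (nil g)) * θ (-(ν (nil h))) := by
  rw [orbSum_eq, nil_inv_mul]
  rw [show (∑ ν ∈ orbF μ, θ (ν (conjN h⁻¹ 1 (nil g - nil h)))) =
    ∑ ν ∈ orbF μ, θ (ν (nil g - nil h)) from
      sum_orbF_comp μ h⁻¹ 1 (fun ν => θ (ν (nil g - nil h)))]
  refine Finset.sum_congr rfl fun ν _ => ?_
  rw [map_sub, sub_eq_add_neg, AddChar.map_add_eq_mul]

theorem orbSum_inv (θ : AddChar F ℂ) (μ : Module.Dual F (strictUpper n F)) (h : unitri n F) :
    orbSum θ μ h⁻¹ = ∑ ν ∈ orbF μ, θ (-(ν (nil h))) := by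
  have := orbSum_inv_mul θ μ 1 h
  rw [mul_one] at this
  rw [this]
  refine Finset.sum_congr rfl fun ν _ => ?_
  rw [nil_one, map_zero, AddChar.map_zero_eq_one, one_mul]

/-! ### orthogonality of additive characters -/

open Classical in
theorem sum_theta (θ : AddChar F ℂ) (hθ : θ ≠ 1) (μ : Module.Dual F (strictUpper n F)) :
    ∑ g : unitri n F, θ (μ (nil g)) =
      if μ = 0 then (Fintype.card (unitri n F) : ℂ) else 0 := by
  split_ifs with h
  · subst h
    simp only [LinearMap.zero_apply, AddChar.map_zero_eq_one, Finset.sum_const, Finset.card_univ,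
      nsmul_eq_mul, mul_one]
  · have h1 : ∑ g : unitri n F, θ (μ (nil g)) = ∑ y : strictUpper n F, θ (μ y) :=
      Equiv.sum_comp nilEquiv (fun y => θ (μ y))
    rw [h1]
    let ψ : AddChar (strictUpper n F) ℂ := θ.compAddMonoidHom μ.toAddMonoidHom
    have h2 : ψ ≠ 0 := by
      intro h0
      apply hθ
      obtain ⟨y, hy⟩ : ∃ y, μ y ≠ 0 := by
        by_contra hc
        push Not at hc
        exact h (LinearMap.ext hc)
      ext c
      have h3 : ψ ((c / μ y) • y) = 1 := by rw [h0]; rfl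
      have h4 : ψ ((c / μ y) • y) = θ (μ ((c / μ y) • y)) := rfl
      rw [h4, map_smul, smul_eq_mul, div_mul_cancel₀ _ hy] at h3
      rw [h3]
      rfl
    exact AddChar.sum_eq_zero_of_ne_one h2

open Classical in
theorem sum_theta_mul (θ : AddChar F ℂ) (hθ : θ ≠ 1) (μ ν : Module.Dual F (strictUpper n F)) :
    ∑ g : unitri n F, θ (μ (nil g)) * θ (-(ν (nil g))) =
      if μ = ν then (Fintype.card (unitri n F) : ℂ) else 0 := by
  have h1 := sum_theta θ hθ (μ - ν)
  have h2 : ∀ g : unitri n F, θ ((μ - ν) (nil g)) = θ (μ (nil g)) * θ (-(ν (nil g))) := by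
    intro g
    rw [LinearMap.sub_apply, sub_eq_add_neg, AddChar.map_add_eq_mul]
  simp only [h2, sub_eq_zero] at h1
  exact h1

theorem sum_dual (θ : AddChar F ℂ) (hθ : θ ≠ 1) (y : strictUpper n F) (hy : y ≠ 0) :
    ∑ μ : Module.Dual F (strictUpper n F), θ (μ y) = 0 := by
  obtain ⟨i, j, hij⟩ : ∃ i j, (y : Matrix (Fin n) (Fin n) F) i j ≠ 0 := by
    by_contra hc
    push Not at hc
    apply hy
    apply Subtype.ext
    ext i j
    exact hc i j
  let ev : Module.Dual F (strictUpper n F) →+ F :=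
    { toFun := fun μ => μ y
      map_zero' := rfl
      map_add' := fun _ _ => rfl }
  let ψ : AddChar (Module.Dual F (strictUpper n F)) ℂ := θ.compAddMonoidHom ev
  have h2 : ψ ≠ 0 := by
    intro h0
    apply hθ
    ext c
    have h3 : ψ (box i j (c / (y : Matrix (Fin n) (Fin n) F) i j)) = 1 := by rw [h0]; rfl
    have h4 : ψ (box i j (c / (y : Matrix (Fin n) (Fin n) F) i j)) =
      θ ((c / (y : Matrix (Fin n) (Fin n) F) i j) * (y : Matrix (Fin n) (Fin n) F) i j) := rfl
    rw [h4, div_mul_cancel₀ _ hij] at h3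
    rw [h3]
    rfl
  exact AddChar.sum_eq_zero_of_ne_one h2

theorem orbF_eq {μ ν : Module.Dual F (strictUpper n F)} (h : ν ∈ orb μ) : orbF ν = orbF μ := by
  ext κ
  rw [mem_orbF, mem_orbF, orb_eq h]

theorem orbF_card_ne (μ : Module.Dual F (strictUpper n F)) : ((orbF μ).card : ℂ) ≠ 0 := by
  have : 0 < (orbF μ).card := Finset.card_pos.2 ⟨μ, mem_orbF.2 (mem_orb_self μ)⟩
  exact_mod_cast this.ne'

/-- Averaging over orbits. -/
theorem sum_orbits (f : Module.Dual F (strictUpper n F) → ℂ) :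
    ∑ μ, ((orbF μ).card : ℂ)⁻¹ * ∑ ν ∈ orbF μ, f ν = ∑ ν, f ν := by
  classical
  have h1 : ∀ μ : Module.Dual F (strictUpper n F),
      ((orbF μ).card : ℂ)⁻¹ * ∑ ν ∈ orbF μ, f ν =
        ∑ ν, if ν ∈ orbF μ then ((orbF μ).card : ℂ)⁻¹ * f ν else 0 := by
    intro μ
    rw [Finset.mul_sum, Finset.sum_ite_mem, Finset.univ_inter]
  simp only [h1]
  rw [Finset.sum_comm]
  refine Finset.sum_congr rfl fun ν _ => ?_
  have h2 : ∀ μ : Module.Dual F (strictUpper n F),
      (if ν ∈ orbF μ then ((orbF μ).card : ℂ)⁻¹ * f ν else 0) =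
        if μ ∈ orbF ν then ((orbF ν).card : ℂ)⁻¹ * f ν else 0 := by
    intro μ
    by_cases h : ν ∈ orbF μ
    · have h3 : μ ∈ orbF ν := mem_orbF.2 (orb_symm (mem_orbF.1 h))
      rw [if_pos h, if_pos h3, orbF_eq (mem_orbF.1 h)]
    · have h3 : μ ∉ orbF ν := fun h4 => h (mem_orbF.2 (orb_symm (mem_orbF.1 h4)))
      rw [if_neg h, if_neg h3]
  simp only [h2]
  rw [Finset.sum_ite_mem, Finset.univ_inter, Finset.sum_const, nsmul_eq_mul, ← mul_assoc,
    mul_inv_cancel₀ (orbF_card_ne ν), one_mul]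

open Classical in
/-- The orbit sums add up to a multiple of the regular character. -/
theorem sum_orbSum (θ : AddChar F ℂ) (hθ : θ ≠ 1) (g : unitri n F) :
    ∑ μ, ((orbF μ).card : ℂ)⁻¹ * orbSum θ μ g =
      if g = 1 then (Fintype.card (Module.Dual F (strictUpper n F)) : ℂ) else 0 := by
  simp only [orbSum_eq]
  rw [sum_orbits (fun ν => θ (ν (nil g)))]
  split_ifs with h
  · subst h
    simp only [nil_one, map_zero, AddChar.map_zero_eq_one, Finset.sum_const, Finset.card_univ,
      nsmul_eq_mul, mul_one]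
  · exact sum_dual θ hθ _ (fun h0 => h (nil_eq_zero.1 h0))

end fin

end Pool.Agent.NH53.SC
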