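import Pool.Agent.NH53.SC.Normal

set_option autoImplicit false

/-!
# The orbits of the single-box functionals
-/

namespace Pool.Agent.NH53.SC
open Pool.Agent.W367.SN

variable {n : ℕ} {F : Type} [Field F]

/-- The indices strictly between `i` and `j`. -/
abbrev Btw (i j : Fin n) : Type := {k : Fin n // i < k ∧ k < j}

/-- The row vector `e_i + s`. -/
def rowV (i j : Fin n) (s : Btw i j → F) (k : Fin n) : F :=
  if k = i then 1 else if h : i < k ∧ k < j then s ⟨k, h⟩ else 0

/-- The column vector `e_j + t`. -/
def colV (i j : Fin n) (t : Btw i j → F) (k : Fin n) : F :=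
  if k = j then 1 else if h : i < k ∧ k < j then t ⟨k, h⟩ else 0

theorem sum_dite_btw (i j : Fin n) (f : Btw i j → F) :
    ∑ k : Fin n, (if h : i < k ∧ k < j then f ⟨k, h⟩ else 0) = ∑ k : Btw i j, f k := by
  rw [← Fintype.sum_subtype_add_sum_subtype (fun k : Fin n => i < k ∧ k < j)]
  have h1 : ∑ k : {k : Fin n // ¬ (i < k ∧ k < j)},
      (if h : i < (k : Fin n) ∧ (k : Fin n) < j then f ⟨k, h⟩ else 0) = 0 := by
    refine Finset.sum_eq_zero fun k _ => ?_
    rw [dif_neg k.2]
  rw [h1, add_zero]
  refine Finset.sum_congr rfl fun k _ => ?_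
  rw [dif_pos k.2]

theorem sum_rowV (i j : Fin n) (s : Btw i j → F) (f : Fin n → F) :
    ∑ k, rowV i j s k * f k = f i + ∑ k : Btw i j, s k * f k := by
  have h1 : ∀ k, rowV i j s k * f k = (if k = i then f i else 0) +
      (if h : i < k ∧ k < j then s ⟨k, h⟩ * f k else 0) := by
    intro k
    unfold rowV
    split_ifs with h1 h2 h2
    · exact absurd h1 (h2.1.ne')
    · rw [h1, one_mul, add_zero]
    · rw [zero_add]
    · rw [zero_mul, add_zero]
  simp only [h1, Finset.sum_add_distrib, Finset.sum_ite_eq', Finset.mem_univ, if_true]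
  rw [sum_dite_btw i j (fun k => s k * f k)]

theorem sum_colV (i j : Fin n) (t : Btw i j → F) (f : Fin n → F) :
    ∑ k, f k * colV i j t k = f j + ∑ k : Btw i j, f k * t k := by
  have h1 : ∀ k, f k * colV i j t k = (if k = j then f j else 0) +
      (if h : i < k ∧ k < j then f k * t ⟨k, h⟩ else 0) := by
    intro k
    unfold colV
    split_ifs with h1 h2 h2
    · exact absurd h1 (h2.2.ne)
    · rw [h1, mul_one, add_zero]
    · rw [zero_add]
    · rw [mul_zero, add_zero]
  simp only [h1, Finset.sum_add_distrib, Finset.sum_ite_eq', Finset.mem_univ, if_true]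
  rw [sum_dite_btw i j (fun k => f k * t k)]

/-- The bilinear form. -/
def bil (i j : Fin n) (s t : Btw i j → F) (y : strictUpper n F) : F :=
  ∑ k, rowV i j s k * ∑ l, (y : Matrix (Fin n) (Fin n) F) k l * colV i j t l

theorem unitri_lower (u : unitri n F) {p q : Fin n} (h : q < p) :
    ((u : GL (Fin n) F) : Matrix (Fin n) (Fin n) F) p q = 0 := by
  have h1 := u.2
  have h2 := h1 p q h.le
  rw [Matrix.sub_apply, Matrix.one_apply_ne h.ne', sub_zero] at h2
  exact h2

theorem unitri_diag (u : unitri n F) (p : Fin n) :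
    ((u : GL (Fin n) F) : Matrix (Fin n) (Fin n) F) p p = 1 := by
  have h1 := u.2
  have h2 := h1 p p le_rfl
  rw [Matrix.sub_apply, Matrix.one_apply_eq, sub_eq_zero] at h2
  exact h2

theorem box_apply (i j : Fin n) (a : F) (y : strictUpper n F) :
    box i j a y = a * (y : Matrix (Fin n) (Fin n) F) i j := rfl

theorem conj_entry (i j : Fin n) (u v : unitri n F) (y : strictUpper n F) :
    (conjN u v y : Matrix (Fin n) (Fin n) F) i j =
      ∑ k, ((u : GL (Fin n) F) : Matrix (Fin n) (Fin n) F) i k *
        ∑ l, (y : Matrix (Fin n) (Fin n) F) k l *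
          ((v : GL (Fin n) F) : Matrix (Fin n) (Fin n) F) l j := by
  rw [conjN_val, mul_assoc, Matrix.mul_apply]
  refine Finset.sum_congr rfl fun k _ => ?_
  rw [Matrix.mul_apply]

/-- The value only depends on a row of `u` and a column of `v`. -/
theorem conj_entry_eq_bil (i j : Fin n) (u v : unitri n F) (y : strictUpper n F) :
    (conjN u v y : Matrix (Fin n) (Fin n) F) i j =
      bil i j (fun k => ((u : GL (Fin n) F) : Matrix (Fin n) (Fin n) F) i k)
        (fun k => ((v : GL (Fin n) F) : Matrix (Fin n) (Fin n) F) k j) y := by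
  rw [conj_entry]
  unfold bil
  refine Finset.sum_congr rfl fun k _ => ?_
  rw [Finset.mul_sum, Finset.mul_sum]
  refine Finset.sum_congr rfl fun l _ => ?_
  rcases le_or_gt l k with h1 | h1
  · rw [y.2 k l h1, zero_mul, mul_zero, zero_mul, mul_zero]
  · unfold rowV colV
    rcases lt_trichotomy k i with h2 | h2 | h2
    · rw [unitri_lower u h2, zero_mul, if_neg h2.ne, dif_neg (fun h => lt_asymm h.1 h2), zero_mul]
    · subst h2
      rw [unitri_diag, if_pos rfl]
      rcases lt_trichotomy l j with h3 | h3 | h3
      · rw [if_neg h3.ne, dif_pos ⟨h1, h3⟩]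
      · subst h3
        rw [unitri_diag, if_pos rfl]
      · rw [unitri_lower v h3, if_neg h3.ne', dif_neg (fun h => lt_asymm h.2 h3)]
    · rw [if_neg h2.ne']
      rcases lt_trichotomy l j with h3 | h3 | h3
      · rw [dif_pos ⟨h2, h1.trans h3⟩, if_neg h3.ne, dif_pos ⟨h2.trans h1, h3⟩]
      · subst h3
        rw [dif_pos ⟨h2, h1⟩, unitri_diag, if_pos rfl]
      · have h4 : ¬ (i < l ∧ l < j) := fun h => lt_asymm h.2 h3
        rw [unitri_lower v h3, if_neg h3.ne', dif_neg h4, mul_zero, mul_zero, mul_zero]

/-- A unitriangular matrix with a prescribed row. -/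
noncomputable def uOf (i j : Fin n) (s : Btw i j → F) : unitri n F :=
  nilEquiv.symm ⟨fun p q => if p = i then (if h : i < q ∧ q < j then s ⟨q, h⟩ else 0) else 0, by
    intro a b hab
    change (if a = i then (if h : i < b ∧ b < j then s ⟨b, h⟩ else 0) else 0) = (0 : F)
    split_ifs with h1 h2
    · subst h1
      exact absurd h2.1 (not_lt.2 hab)
    · rfl
    · rfl⟩

/-- A unitriangular matrix with a prescribed column. -/
noncomputable def vOf (i j : Fin n) (t : Btw i j → F) : unitri n F :=
  nilEquiv.symm ⟨fun p q => if q = j then (if h : i < p ∧ p < j then t ⟨p, h⟩ else 0) else 0, by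
    intro a b hab
    change (if b = j then (if h : i < a ∧ a < j then t ⟨a, h⟩ else 0) else 0) = (0 : F)
    split_ifs with h1 h2
    · subst h1
      exact absurd h2.2 (not_lt.2 hab)
    · rfl
    · rfl⟩

theorem nilEquiv_symm_val (y : strictUpper n F) :
    ((nilEquiv.symm y : GL (Fin n) F) : Matrix (Fin n) (Fin n) F) =
      1 + (y : Matrix (Fin n) (Fin n) F) := by
  have h1 : nil (nilEquiv.symm y) = y := nilEquiv.apply_symm_apply y
  have h2 := congrArg Subtype.val h1
  rw [nil_val, sub_eq_iff_eq_add] at h2
  rw [h2, add_comm]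

theorem uOf_row (i j : Fin n) (s : Btw i j → F) (k : Btw i j) :
    ((uOf i j s : GL (Fin n) F) : Matrix (Fin n) (Fin n) F) i k = s k := by
  unfold uOf
  rw [nilEquiv_symm_val, Matrix.add_apply, Matrix.one_apply_ne k.2.1.ne, zero_add]
  change (if i = i then (if h : i < (k : Fin n) ∧ (k : Fin n) < j then s ⟨k, h⟩ else 0) else 0) = _
  rw [if_pos rfl, dif_pos k.2]

theorem vOf_col (i j : Fin n) (t : Btw i j → F) (k : Btw i j) :
    ((vOf i j t : GL (Fin n) F) : Matrix (Fin n) (Fin n) F) k j = t k := by
  unfold vOf
  rw [nilEquiv_symm_val, Matrix.add_apply, Matrix.one_apply_ne k.2.2.ne, zero_add]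
  change (if j = j then (if h : i < (k : Fin n) ∧ (k : Fin n) < j then t ⟨k, h⟩ else 0) else 0) = _
  rw [if_pos rfl, dif_pos k.2]

/-- The functionals in the orbit of a box. -/
noncomputable def Phi (i j : Fin n) (a : F) (s t : Btw i j → F) :
    Module.Dual F (strictUpper n F) := box i j a ∘ₗ conjN (uOf i j s) (vOf i j t)

theorem Phi_apply (i j : Fin n) (a : F) (s t : Btw i j → F) (y : strictUpper n F) :
    Phi i j a s t y = a * bil i j s t y := by
  unfold Phi
  rw [LinearMap.comp_apply, box_apply, conj_entry_eq_bil]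
  congr 2
  · funext k
    exact uOf_row i j s k
  · funext k
    exact vOf_col i j t k

theorem comp_eq_Phi (i j : Fin n) (a : F) (u v : unitri n F) :
    box i j a ∘ₗ conjN u v =
      Phi i j a (fun k => ((u : GL (Fin n) F) : Matrix (Fin n) (Fin n) F) i k)
        (fun k => ((v : GL (Fin n) F) : Matrix (Fin n) (Fin n) F) k j) := by
  ext y
  rw [Phi_apply, LinearMap.comp_apply, box_apply, conj_entry_eq_bil]

theorem mem_orb_box (i j : Fin n) (a : F) (ν : Module.Dual F (strictUpper n F)) :
    ν ∈ orb (box i j a) ↔ ∃ s t, ν = Phi i j a s t := by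
  constructor
  · rintro ⟨u, v, rfl⟩
    exact ⟨_, _, comp_eq_Phi i j a u v⟩
  · rintro ⟨s, t, rfl⟩
    exact ⟨_, _, rfl⟩

/-- The matrix unit. -/
def unitN {p q : Fin n} (h : p < q) : strictUpper n F :=
  ⟨Matrix.single p q 1, by
    intro a b hab
    rw [Matrix.single_apply]
    split_ifs with h1
    · obtain ⟨rfl, rfl⟩ := h1
      exact absurd h (not_lt.2 hab)
    · rfl⟩

theorem bil_unitN (i j : Fin n) (s t : Btw i j → F) {p q : Fin n} (h : p < q) :
    bil i j s t (unitN h) = rowV i j s p * colV i j t q := by
  unfold bil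
  change ∑ k, rowV i j s k * ∑ l, Matrix.single p q (1 : F) k l * colV i j t l = _
  have h1 : ∀ k l, Matrix.single p q (1 : F) k l * colV i j t l =
      if q = l then (if p = k then colV i j t l else 0) else 0 := by
    intro k l
    rw [Matrix.single_apply]
    by_cases hp : p = k
    · by_cases hq : q = l
      · rw [if_pos ⟨hp, hq⟩, if_pos hq, if_pos hp, one_mul]
      · rw [if_neg (fun h => hq h.2), if_neg hq, zero_mul]
    · rw [if_neg (fun h => hp h.1), zero_mul]
      split_ifs <;> rfl
  simp only [h1, Finset.sum_ite_eq, Finset.mem_univ, if_true, mul_ite, mul_zero]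

theorem Phi_inj {i j : Fin n} {a : F} (ha : a ≠ 0) {s t s' t' : Btw i j → F}
    (h : Phi i j a s t = Phi i j a s' t') : s = s' ∧ t = t' := by
  constructor
  · funext k
    have h1 := congrArg (fun ν : Module.Dual F (strictUpper n F) => ν (unitN k.2.2)) h
    change Phi i j a s t (unitN k.2.2) = Phi i j a s' t' (unitN k.2.2) at h1
    rw [Phi_apply, Phi_apply, bil_unitN, bil_unitN] at h1
    unfold rowV colV at h1
    rw [if_neg k.2.1.ne', dif_pos k.2, if_pos rfl, if_neg k.2.1.ne', dif_pos k.2, if_pos rfl,
      mul_one, mul_one] at h1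
    exact mul_left_cancel₀ ha h1
  · funext k
    have h1 := congrArg (fun ν : Module.Dual F (strictUpper n F) => ν (unitN k.2.1)) h
    change Phi i j a s t (unitN k.2.1) = Phi i j a s' t' (unitN k.2.1) at h1
    rw [Phi_apply, Phi_apply, bil_unitN, bil_unitN] at h1
    unfold rowV colV at h1
    rw [if_neg k.2.2.ne, dif_pos k.2, if_pos rfl, if_neg k.2.2.ne, dif_pos k.2, if_pos rfl,
      one_mul, one_mul] at h1
    exact mul_left_cancel₀ ha h1

theorem bil_eq (i j : Fin n) (s t : Btw i j → F) (y : strictUpper n F) :
    bil i j s t y = ((y : Matrix (Fin n) (Fin n) F) i j +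
        ∑ l : Btw i j, (y : Matrix (Fin n) (Fin n) F) i l * t l) +
      ∑ k : Btw i j, s k * ((y : Matrix (Fin n) (Fin n) F) k j +
        ∑ l : Btw i j, (y : Matrix (Fin n) (Fin n) F) k l * t l) := by
  unfold bil
  rw [sum_rowV]
  simp only [sum_colV]

section fin
variable [Finite F]

noncomputable instance (i j : Fin n) : Fintype (Btw i j → F) := Fintype.ofFinite _

theorem orbSum_box {i j : Fin n} {a : F} (ha : a ≠ 0) (θ : AddChar F ℂ)
    (g : unitri n F) :
    orbSum θ (box i j a) g =
      ∑ p : (Btw i j → F) × (Btw i j → F), θ (a * bil i j p.1 p.2 (nil g)) := by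
  classical
  rw [orbSum_eq]
  have h1 : orbF (box i j a) =
      Finset.univ.image (fun p : (Btw i j → F) × (Btw i j → F) => Phi i j a p.1 p.2) := by
    ext ν
    rw [mem_orbF, mem_orb_box, Finset.mem_image]
    constructor
    · rintro ⟨s, t, rfl⟩
      exact ⟨(s, t), Finset.mem_univ _, rfl⟩
    · rintro ⟨p, _, rfl⟩
      exact ⟨p.1, p.2, rfl⟩
  rw [h1, Finset.sum_image]
  · refine Finset.sum_congr rfl fun p _ => ?_
    rw [Phi_apply]
  · intro p _ q _ h
    have := Phi_inj ha h
    exact Prod.ext this.1 this.2

theorem card_btw (i j : Fin n) : Fintype.card (Btw i j) = (j : ℕ) - i - 1 := by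
  rw [← Fin.card_Ioo, Fintype.card_subtype]
  congr 1
  ext k
  simp

omit [Field F] in
theorem card_fun (i j : Fin n) : Fintype.card (Btw i j → F) = Nat.card F ^ ((j : ℕ) - i - 1) := by
  rw [← Nat.card_eq_fintype_card, Nat.card_fun, Nat.card_eq_fintype_card (α := Btw i j),
    card_btw]

theorem orbF_box_card {i j : Fin n} {a : F} (ha : a ≠ 0) :
    (orbF (box i j a)).card = (Nat.card F ^ ((j : ℕ) - i - 1)) ^ 2 := by
  classical
  have h1 : orbF (box i j a) =
      Finset.univ.image (fun p : (Btw i j → F) × (Btw i j → F) => Phi i j a p.1 p.2) := by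
    ext ν
    rw [mem_orbF, mem_orb_box, Finset.mem_image]
    constructor
    · rintro ⟨s, t, rfl⟩
      exact ⟨(s, t), Finset.mem_univ _, rfl⟩
    · rintro ⟨p, _, rfl⟩
      exact ⟨p.1, p.2, rfl⟩
  rw [h1, Finset.card_image_of_injective, Finset.card_univ, Fintype.card_prod, card_fun, sq]
  intro p q h
  have := Phi_inj ha h
  exact Prod.ext this.1 this.2

open Classical in
theorem sum_linear {i j : Fin n} (θ : AddChar F ℂ) (hθ : θ ≠ 1) {a : F} (ha : a ≠ 0)
    (w : Btw i j → F) :
    ∑ s : Btw i j → F, θ (a * ∑ k, s k * w k) =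
      if w = 0 then (Fintype.card (Btw i j → F) : ℂ) else 0 := by
  split_ifs with h
  · subst h
    simp only [Pi.zero_apply, mul_zero, Finset.sum_const_zero, AddChar.map_zero_eq_one,
      Finset.sum_const, Finset.card_univ, nsmul_eq_mul, mul_one]
  · obtain ⟨k, hk⟩ : ∃ k, w k ≠ 0 := by
      by_contra hc
      push Not at hc
      exact h (funext hc)
    let ev : (Btw i j → F) →+ F :=
      { toFun := fun s => a * ∑ k, s k * w k
        map_zero' := by simp
        map_add' := fun s s' => by
          simp only [Pi.add_apply, add_mul, Finset.sum_add_distrib, mul_add] }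
    let ψ : AddChar (Btw i j → F) ℂ := θ.compAddMonoidHom ev
    have h2 : ψ ≠ 0 := by
      intro h0
      apply hθ
      ext c
      have h3 : ψ (Pi.single k (c / (a * w k))) = 1 := by rw [h0]; rfl
      have h4 : ψ (Pi.single k (c / (a * w k))) =
        θ (a * ∑ k', (Pi.single k (c / (a * w k)) : Btw i j → F) k' * w k') := rfl
      rw [h4, Finset.sum_eq_single k, Pi.single_eq_same] at h3
      · have h5 : a * (c / (a * w k) * w k) = c := by field_simp
        rw [h5] at h3
        rw [h3]
        rfl
      · intro l _ hl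
        rw [Pi.single_eq_of_ne hl, zero_mul]
      · intro h
        exact absurd (Finset.mem_univ _) h
    exact AddChar.sum_eq_zero_of_ne_one h2

/-- The factor in the value of a single-box supercharacter. -/
noncomputable def fac (θ : AddChar F ℂ) (i j : Fin n) (a : F) (y : strictUpper n F) : ℂ :=
  ∑ t : Btw i j → F, ∑ s : Btw i j → F,
    θ (a * ∑ k : Btw i j, s k * ∑ l : Btw i j, (y : Matrix (Fin n) (Fin n) F) k l * t l)

theorem fac_ne_zero {i j : Fin n} (θ : AddChar F ℂ) (hθ : θ ≠ 1) {a : F} (ha : a ≠ 0)
    (y : strictUpper n F) : fac θ i j a y ≠ 0 := by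
  classical
  unfold fac
  have h1 : ∀ t : Btw i j → F, ∑ s : Btw i j → F,
      θ (a * ∑ k : Btw i j, s k * ∑ l : Btw i j, (y : Matrix (Fin n) (Fin n) F) k l * t l) =
      if (fun k : Btw i j => ∑ l : Btw i j, (y : Matrix (Fin n) (Fin n) F) k l * t l) = 0
        then (Fintype.card (Btw i j → F) : ℂ) else 0 := fun t => sum_linear θ hθ ha _
  simp only [h1]
  rw [← Finset.sum_filter, Finset.sum_const, nsmul_eq_mul]
  refine mul_ne_zero ?_ (by exact_mod_cast Fintype.card_ne_zero)
  have h2 : 0 < (Finset.univ.filter fun t : Btw i j → F =>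
      (fun k : Btw i j => ∑ l : Btw i j, (y : Matrix (Fin n) (Fin n) F) k l * t l) = 0).card := by
    apply Finset.card_pos.2
    refine ⟨0, ?_⟩
    rw [Finset.mem_filter]
    refine ⟨Finset.mem_univ _, ?_⟩
    funext k
    simp
  exact_mod_cast h2.ne'

theorem orbSum_box_normal {i j : Fin n} {a : F} (ha : a ≠ 0) (θ : AddChar F ℂ)
    (g : unitri n F) (h1 : ∀ k : Btw i j, (nil g : Matrix (Fin n) (Fin n) F) i k = 0)
    (h2 : ∀ k : Btw i j, (nil g : Matrix (Fin n) (Fin n) F) k j = 0) :
    orbSum θ (box i j a) g =
      θ (a * (nil g : Matrix (Fin n) (Fin n) F) i j) * fac θ i j a (nil g) := by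
  rw [orbSum_box ha]
  have h3 : ∀ p : (Btw i j → F) × (Btw i j → F), θ (a * bil i j p.1 p.2 (nil g)) =
      θ (a * (nil g : Matrix (Fin n) (Fin n) F) i j) *
      θ (a * ∑ k : Btw i j, p.1 k *
        ∑ l : Btw i j, (nil g : Matrix (Fin n) (Fin n) F) k l * p.2 l) := by
    intro p
    rw [bil_eq]
    simp only [h1, h2, zero_mul, Finset.sum_const_zero, add_zero, zero_add]
    rw [mul_add, AddChar.map_add_eq_mul]
  simp only [h3]
  rw [← Finset.mul_sum, Fintype.sum_prod_type_right]
  rfl

/-- The single-box supercharacters separate the superclasses. -/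
theorem separate (θ : AddChar F ℂ) (hθ : θ ≠ 1) (g h : unitri n F)
    (hgh : ∀ i j : Fin n, i < j → ∀ a : F, a ≠ 0 →
      orbSum θ (box i j a) g = orbSum θ (box i j a) h) : g ∈ superclass h := by
  classical
  obtain ⟨u, v, hN⟩ := exists_normal (nil g)
  obtain ⟨u', v', hN'⟩ := exists_normal (nil h)
  set y := conjN u v (nil g) with hy
  set y' := conjN u' v' (nil h) with hy'
  let g0 : unitri n F := nilEquiv.symm y
  let h0 : unitri n F := nilEquiv.symm y'
  have hg0 : nil g0 = y := nilEquiv.apply_symm_apply y
  have hh0 : nil h0 = y' := nilEquiv.apply_symm_apply y'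
  have heq : ∀ i j : Fin n, i < j → ∀ a : F, a ≠ 0 →
      orbSum θ (box i j a) g0 = orbSum θ (box i j a) h0 := by
    intro i j hij a ha
    rw [orbSum_super θ (box i j a) g0 g u v (hg0.trans hy),
      orbSum_super θ (box i j a) h0 h u' v' (hh0.trans hy')]
    exact hgh i j hij a ha
  have key : ∀ m : ℕ, ∀ i j : Fin n, (j : ℕ) = i + m →
      (y : Matrix (Fin n) (Fin n) F) i j = (y' : Matrix (Fin n) (Fin n) F) i j := by
    intro m
    induction m using Nat.strong_induction_on with
    | _ m ih =>
      intro i j hij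
      rcases Nat.eq_zero_or_pos m with h1 | h1
      · have h2 : j ≤ i := by
          change (j : ℕ) ≤ i
          omega
        rw [y.2 i j h2, y'.2 i j h2]
      · have hlt : i < j := by
          change (i : ℕ) < j
          omega
        have hIH : ∀ p q : Fin n, (q : ℕ) < p + m →
            (y : Matrix (Fin n) (Fin n) F) p q = (y' : Matrix (Fin n) (Fin n) F) p q := by
          intro p q hpq
          rcases le_or_gt q p with h2 | h2
          · rw [y.2 p q h2, y'.2 p q h2]
          · have h3 : (p : ℕ) < q := h2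
            exact ih (q - p) (by omega) p q (by omega)
        by_cases hr : ∃ k : Btw i j, (y : Matrix (Fin n) (Fin n) F) i k ≠ 0
        · obtain ⟨k, hk⟩ := hr
          have hkj : (k : Fin n) < j := k.2.2
          have hkj' : ((k : Fin n) : ℕ) < j := hkj
          have hk' : (y' : Matrix (Fin n) (Fin n) F) i k ≠ 0 := by
            rw [← hIH i k (by omega)]
            exact hk
          have h3 : (y : Matrix (Fin n) (Fin n) F) i j = 0 := by
            by_contra h4
            exact hkj.ne (hN.1 i k j hk h4)
          have h4 : (y' : Matrix (Fin n) (Fin n) F) i j = 0 := by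
            by_contra h4
            exact hkj.ne (hN'.1 i k j hk' h4)
          rw [h3, h4]
        · by_cases hc : ∃ k : Btw i j, (y : Matrix (Fin n) (Fin n) F) k j ≠ 0
          · obtain ⟨k, hk⟩ := hc
            have hik : i < (k : Fin n) := k.2.1
            have hik' : (i : ℕ) < (k : Fin n) := hik
            have hk' : (y' : Matrix (Fin n) (Fin n) F) k j ≠ 0 := by
              rw [← hIH k j (by omega)]
              exact hk
            have h3 : (y : Matrix (Fin n) (Fin n) F) i j = 0 := by
              by_contra h4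
              exact hik.ne (hN.2 i k j h4 hk)
            have h4 : (y' : Matrix (Fin n) (Fin n) F) i j = 0 := by
              by_contra h4
              exact hik.ne (hN'.2 i k j h4 hk')
            rw [h3, h4]
          · push Not at hr hc
            have hr' : ∀ k : Btw i j, (y' : Matrix (Fin n) (Fin n) F) i k = 0 := by
              intro k
              have hkj' : ((k : Fin n) : ℕ) < j := k.2.2
              rw [← hIH i k (by omega)]
              exact hr k
            have hc' : ∀ k : Btw i j, (y' : Matrix (Fin n) (Fin n) F) k j = 0 := by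
              intro k
              have hik' : (i : ℕ) < (k : Fin n) := k.2.1
              rw [← hIH k j (by omega)]
              exact hc k
            have hfac : ∀ a : F, fac θ i j a y = fac θ i j a y' := by
              intro a
              unfold fac
              refine Finset.sum_congr rfl fun t _ => Finset.sum_congr rfl fun s _ => ?_
              congr 2
              refine Finset.sum_congr rfl fun k _ => ?_
              congr 1
              refine Finset.sum_congr rfl fun l _ => ?_
              have h3 : (i : ℕ) < (k : Fin n) := k.2.1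
              have h4 : ((l : Fin n) : ℕ) < j := l.2.2
              rw [hIH k l (by omega)]
            have hval : ∀ a : F, a ≠ 0 → θ (a * (y : Matrix (Fin n) (Fin n) F) i j) =
                θ (a * (y' : Matrix (Fin n) (Fin n) F) i j) := by
              intro a ha
              have h3 := heq i j hlt a ha
              rw [orbSum_box_normal ha θ g0 (by rw [hg0]; exact hr) (by rw [hg0]; exact hc),
                orbSum_box_normal ha θ h0 (by rw [hh0]; exact hr') (by rw [hh0]; exact hc'),
                hg0, hh0, hfac a] at h3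
              exact mul_right_cancel₀ (fac_ne_zero θ hθ ha y') h3
            by_contra hne
            apply hθ
            ext c
            have hd : (y : Matrix (Fin n) (Fin n) F) i j -
                (y' : Matrix (Fin n) (Fin n) F) i j ≠ 0 := sub_ne_zero.2 hne
            rcases eq_or_ne c 0 with h3 | h3
            · rw [h3, AddChar.map_zero_eq_one, AddChar.map_zero_eq_one]
            · have h4 := hval (c / ((y : Matrix (Fin n) (Fin n) F) i j -
                (y' : Matrix (Fin n) (Fin n) F) i j)) (div_ne_zero h3 hd)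
              have h5 : c = c / ((y : Matrix (Fin n) (Fin n) F) i j -
                  (y' : Matrix (Fin n) (Fin n) F) i j) * (y : Matrix (Fin n) (Fin n) F) i j +
                  - (c / ((y : Matrix (Fin n) (Fin n) F) i j -
                  (y' : Matrix (Fin n) (Fin n) F) i j) *
                    (y' : Matrix (Fin n) (Fin n) F) i j) := by
                field_simp
                ring
              rw [h5, AddChar.map_add_eq_mul, h4, ← AddChar.map_add_eq_mul, add_neg_cancel,
                AddChar.map_zero_eq_one]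
              rfl
  have hyy : y = y' := by
    apply Subtype.ext
    ext i j
    rcases le_or_gt j i with h1 | h1
    · rw [y.2 i j h1, y'.2 i j h1]
    · have h2 : (i : ℕ) < j := h1
      exact key (j - i) i j (by omega)
  refine ⟨u⁻¹ * u', v' * v⁻¹, ?_⟩
  rw [← conjN_conjN, ← hy', ← hyy, hy, conjN_conjN, inv_mul_cancel, mul_inv_cancel, conjN_one]

end fin

end Pool.Agent.NH53.SC
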