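import Pool.Agent.NH53.SC.Box

set_option autoImplicit false

/-!
# The single-box supercharacters are irreducible characters
-/

namespace Pool.Agent.NH53.SC
open Pool.Agent.W367.SN

variable {n : ℕ} {F : Type} [Field F]

/-- The orbit of `μ` under one-sided multiplication. -/
abbrev Lt (μ : Module.Dual F (strictUpper n F)) : Type :=
  {ν : Module.Dual F (strictUpper n F) // ∃ v : unitri n F, ν = μ ∘ₗ conjN 1 v}

/-- One-sided action on `Lt μ`. -/
def ltAct {μ : Module.Dual F (strictUpper n F)} (ν : Lt μ) (g : unitri n F) : Lt μ :=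
  ⟨ν.1 ∘ₗ conjN 1 g, by
    obtain ⟨v, hv⟩ := ν.2
    exact ⟨g * v, by rw [hv, comp_comp, one_mul]⟩⟩

theorem ltAct_val {μ : Module.Dual F (strictUpper n F)} (ν : Lt μ) (g : unitri n F) :
    (ltAct ν g).1 = ν.1 ∘ₗ conjN 1 g := rfl

theorem ltAct_mul {μ : Module.Dual F (strictUpper n F)} (ν : Lt μ) (g h : unitri n F) :
    ltAct (ltAct ν h) g = ltAct ν (g * h) := by
  apply Subtype.ext
  rw [ltAct_val, ltAct_val, ltAct_val, comp_comp, one_mul]

theorem ltAct_one {μ : Module.Dual F (strictUpper n F)} (ν : Lt μ) : ltAct ν 1 = ν := by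
  apply Subtype.ext
  rw [ltAct_val, comp_one]

section fin
variable [Finite F]

noncomputable instance (μ : Module.Dual F (strictUpper n F)) : Fintype (Lt μ) := Fintype.ofFinite _

open Classical in
/-- The monomial matrix representation with character `∑ [ν g = ν] θ(ν(g-1))`. -/
noncomputable def rep (θ : AddChar F ℂ) (μ : Module.Dual F (strictUpper n F)) :
    unitri n F →* Matrix (Lt μ) (Lt μ) ℂ where
  toFun := fun g => Matrix.of fun κ ν => if κ = ltAct ν g then θ (ν.1 (nil g)) else 0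
  map_one' := by
    ext κ ν
    rw [Matrix.of_apply, ltAct_one, nil_one, map_zero, AddChar.map_zero_eq_one, Matrix.one_apply]
  map_mul' := fun g h => by
    ext κ ν
    rw [Matrix.of_apply, Matrix.mul_apply]
    simp only [Matrix.of_apply]
    have h1 : ∀ ι : Lt μ, (if κ = ltAct ι g then θ (ι.1 (nil g)) else 0) *
        (if ι = ltAct ν h then θ (ν.1 (nil h)) else 0) =
        if ι = ltAct ν h then (if κ = ltAct ι g then θ (ι.1 (nil g)) * θ (ν.1 (nil h)) else 0)
        else 0 := by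
      intro ι
      split_ifs <;> simp
    simp only [h1, Finset.sum_ite_eq', Finset.mem_univ, if_true]
    rw [ltAct_mul, ltAct_val, LinearMap.comp_apply, nil_mul', map_add, AddChar.map_add_eq_mul]

open Classical in
theorem rep_trace (θ : AddChar F ℂ) (μ : Module.Dual F (strictUpper n F)) (g : unitri n F) :
    (rep θ μ g).trace = ∑ ν : Lt μ, if ν.1 = ν.1 ∘ₗ conjN 1 g then θ (ν.1 (nil g)) else 0 := by
  unfold Matrix.trace
  refine Finset.sum_congr rfl fun ν _ => ?_
  change (if ν = ltAct ν g then θ (ν.1 (nil g)) else 0) = _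
  have : (ν = ltAct ν g) ↔ (ν.1 = ν.1 ∘ₗ conjN 1 g) :=
    ⟨fun h => congrArg Subtype.val h, fun h => Subtype.ext h⟩
  simp only [this]

open Classical in
theorem sum_left (θ : AddChar F ℂ) (hθ : θ ≠ 1) (ν : Module.Dual F (strictUpper n F))
    (g : unitri n F) :
    ∑ u : unitri n F, θ (ν (conjN u 1 (nil g))) =
      if ν = ν ∘ₗ conjN 1 g then (Fintype.card (unitri n F) : ℂ) * θ (ν (nil g)) else 0 := by
  have h1 : ∀ u : unitri n F, θ (ν (conjN u 1 (nil g))) =
      θ ((ν ∘ₗ conjN 1 g - ν) (nil u)) * θ (ν (nil g)) := by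
    intro u
    have h2 : conjN u 1 (nil g) = conjN 1 g (nil u) - nil u + nil g := by
      have h3 := (nil_mul u g).symm.trans (nil_mul' u g)
      rw [← eq_sub_iff_add_eq'] at h3
      rw [h3]
      abel
    rw [h2, map_add, map_sub, AddChar.map_add_eq_mul]
    rfl
  simp only [h1]
  rw [← Finset.sum_mul, sum_theta θ hθ]
  simp only [sub_eq_zero]
  split_ifs with h3 h4 h4
  · rfl
  · exact absurd h3.symm h4
  · exact absurd h4.symm h3
  · rw [zero_mul]

/-- Sums over an orbit and sums over the group. -/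
theorem sum_group_orb (μ : Module.Dual F (strictUpper n F))
    (f : Module.Dual F (strictUpper n F) → ℂ) :
    (Fintype.card (unitri n F) : ℂ) ^ 2 * ∑ ν ∈ orbF μ, f ν =
      (orbF μ).card * ∑ u : unitri n F, ∑ v : unitri n F, f (μ ∘ₗ conjN u v) := by
  have h1 : ∑ u : unitri n F, ∑ v : unitri n F, ∑ ν ∈ orbF μ, f (ν ∘ₗ conjN u v) =
      (Fintype.card (unitri n F) : ℂ) ^ 2 * ∑ ν ∈ orbF μ, f ν := by
    simp only [sum_orbF_comp, Finset.sum_const, Finset.card_univ, nsmul_eq_mul]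
    ring
  have h2 : ∀ ν ∈ orbF μ, ∑ u : unitri n F, ∑ v : unitri n F, f (ν ∘ₗ conjN u v) =
      ∑ u : unitri n F, ∑ v : unitri n F, f (μ ∘ₗ conjN u v) := by
    intro ν hν
    rw [mem_orbF] at hν
    obtain ⟨u0, v0, rfl⟩ := hν
    refine Fintype.sum_equiv (Equiv.mulLeft u0) _ _ fun u => ?_
    refine Fintype.sum_equiv (Equiv.mulRight v0) _ _ fun v => ?_
    rw [comp_comp]
    rfl
  rw [← h1]
  have h3 : ∀ u : unitri n F, ∑ v : unitri n F, ∑ ν ∈ orbF μ, f (ν ∘ₗ conjN u v) =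
      ∑ ν ∈ orbF μ, ∑ v : unitri n F, f (ν ∘ₗ conjN u v) := fun u => Finset.sum_comm
  simp only [h3]
  rw [Finset.sum_comm, Finset.sum_congr rfl h2, Finset.sum_const, nsmul_eq_mul]

theorem sum_group_lt (μ : Module.Dual F (strictUpper n F))
    (f : Module.Dual F (strictUpper n F) → ℂ) :
    (Fintype.card (unitri n F) : ℂ) * ∑ ν : Lt μ, f ν.1 =
      Fintype.card (Lt μ) * ∑ v : unitri n F, f (μ ∘ₗ conjN 1 v) := by
  have h0 : ∀ v : unitri n F, ∑ ν : Lt μ, f (ν.1 ∘ₗ conjN 1 v) = ∑ ν : Lt μ, f ν.1 := by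
    intro v
    let e : Lt μ ≃ Lt μ :=
      { toFun := fun ν => ltAct ν v
        invFun := fun ν => ltAct ν v⁻¹
        left_inv := fun ν => by
          change ltAct (ltAct ν v) v⁻¹ = ν
          rw [ltAct_mul, inv_mul_cancel, ltAct_one]
        right_inv := fun ν => by
          change ltAct (ltAct ν v⁻¹) v = ν
          rw [ltAct_mul, mul_inv_cancel, ltAct_one] }
    exact Equiv.sum_comp e (fun ν : Lt μ => f ν.1)
  have h1 : ∑ v : unitri n F, ∑ ν : Lt μ, f (ν.1 ∘ₗ conjN 1 v) =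
      (Fintype.card (unitri n F) : ℂ) * ∑ ν : Lt μ, f ν.1 := by
    simp only [h0, Finset.sum_const, Finset.card_univ, nsmul_eq_mul]
  have h2 : ∀ ν : Lt μ, ∑ v : unitri n F, f (ν.1 ∘ₗ conjN 1 v) =
      ∑ v : unitri n F, f (μ ∘ₗ conjN 1 v) := by
    rintro ⟨ν, v0, rfl⟩
    refine Fintype.sum_equiv (Equiv.mulRight v0) _ _ fun v => ?_
    rw [comp_comp, one_mul]
    rfl
  rw [← h1, Finset.sum_comm]
  simp only [h2, Finset.sum_const, Finset.card_univ, nsmul_eq_mul]

theorem card_ne : (Fintype.card (unitri n F) : ℂ) ≠ 0 := by exact_mod_cast Fintype.card_ne_zero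

/-- The character of `rep` is a multiple of the orbit sum. -/
theorem rep_char (θ : AddChar F ℂ) (hθ : θ ≠ 1) (μ : Module.Dual F (strictUpper n F))
    (g : unitri n F) :
    ((orbF μ).card : ℂ) * (rep θ μ g).trace = Fintype.card (Lt μ) * orbSum θ μ g := by
  classical
  have h1 : (Fintype.card (unitri n F) : ℂ) * (rep θ μ g).trace =
      ∑ ν : Lt μ, ∑ u : unitri n F, θ (ν.1 (conjN u 1 (nil g))) := by
    rw [rep_trace, Finset.mul_sum]
    refine Finset.sum_congr rfl fun ν _ => ?_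
    rw [sum_left θ hθ]
    split_ifs with h
    · rfl
    · rw [mul_zero]
  have h2 := sum_group_lt μ (fun ν => ∑ u : unitri n F, θ (ν (conjN u 1 (nil g))))
  rw [← h1] at h2
  have h3 := sum_group_orb μ (fun ν => θ (ν (nil g)))
  rw [← orbSum_eq] at h3
  have h4 : ∑ v : unitri n F, ∑ u : unitri n F, θ ((μ ∘ₗ conjN 1 v) (conjN u 1 (nil g))) =
      ∑ u : unitri n F, ∑ v : unitri n F, θ ((μ ∘ₗ conjN u v) (nil g)) := by
    rw [Finset.sum_comm]
    refine Finset.sum_congr rfl fun u _ => Finset.sum_congr rfl fun v _ => ?_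
    rw [LinearMap.comp_apply, LinearMap.comp_apply, conjN_conjN, one_mul, one_mul]
  rw [h4] at h2
  have h5 : (Fintype.card (unitri n F) : ℂ) ^ 2 ≠ 0 := pow_ne_zero _ card_ne
  apply mul_left_cancel₀ h5
  linear_combination ((orbF μ).card : ℂ) * h2 - (Fintype.card (Lt μ) : ℂ) * h3

theorem orbSum_norm (θ : AddChar F ℂ) (hθ : θ ≠ 1) (μ : Module.Dual F (strictUpper n F)) :
    ∑ g, orbSum θ μ g * orbSum θ μ g⁻¹ = Fintype.card (unitri n F) * (orbF μ).card := by
  classical
  have h1 := conv θ hθ μ μ 1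
  rw [if_pos rfl, inv_one, orbSum_eq θ μ 1] at h1
  simp only [one_mul, nil_one, map_zero, AddChar.map_zero_eq_one, Finset.sum_const,
    nsmul_eq_mul, mul_one] at h1
  rw [← h1]
  exact Finset.sum_congr rfl fun g _ => mul_comm _ _

theorem card_lt_box {i j : Fin n} {a : F} (ha : a ≠ 0) :
    Fintype.card (Lt (box i j a)) = Nat.card F ^ ((j : ℕ) - i - 1) := by
  classical
  rw [← card_fun i j]
  symm
  have hrow : (fun k : Btw i j => (((1 : unitri n F) : GL (Fin n) F) :
      Matrix (Fin n) (Fin n) F) i k) = 0 := by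
    funext k
    rw [Subgroup.coe_one, Units.val_one, Matrix.one_apply_ne k.2.1.ne]
    rfl
  have hcol : ∀ t : Btw i j → F, (fun k : Btw i j => ((vOf i j t : GL (Fin n) F) :
      Matrix (Fin n) (Fin n) F) k j) = t := fun t => funext fun k => vOf_col i j t k
  apply Fintype.card_congr
  refine Equiv.ofBijective (fun t => (⟨box i j a ∘ₗ conjN 1 (vOf i j t), vOf i j t, rfl⟩ :
    Lt (box i j a))) ⟨?_, ?_⟩
  · intro t t' h
    have h1 := congrArg Subtype.val h
    change box i j a ∘ₗ conjN 1 (vOf i j t) = box i j a ∘ₗ conjN 1 (vOf i j t') at h1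
    rw [comp_eq_Phi, comp_eq_Phi, hrow, hcol, hcol] at h1
    exact (Phi_inj ha h1).2
  · rintro ⟨ν, v, rfl⟩
    refine ⟨fun k => ((v : GL (Fin n) F) : Matrix (Fin n) (Fin n) F) k j, ?_⟩
    apply Subtype.ext
    change box i j a ∘ₗ conjN 1 (vOf i j _) = box i j a ∘ₗ conjN 1 v
    rw [comp_eq_Phi, comp_eq_Phi, hcol]

theorem cardF_ne (m : ℕ) : (Nat.card F : ℂ) ^ m ≠ 0 :=
  pow_ne_zero _ (by exact_mod_cast Nat.card_pos.ne')

theorem boxChar_eq_trace {i j : Fin n} {a : F} (ha : a ≠ 0) (θ : AddChar F ℂ) (hθ : θ ≠ 1)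
    (g : unitri n F) : boxChar θ i j a g = (rep θ (box i j a) g).trace := by
  have h1 := rep_char θ hθ (box i j a) g
  rw [orbF_box_card ha, card_lt_box ha] at h1
  push_cast at h1
  have h2 := cardF_ne (F := F) ((j : ℕ) - i - 1)
  unfold boxChar
  rw [inv_mul_eq_iff_eq_mul₀ h2]
  apply mul_left_cancel₀ h2
  rw [← h1]
  ring

theorem boxChar_irr {i j : Fin n} {a : F} (ha : a ≠ 0) (θ : AddChar F ℂ) (hθ : θ ≠ 1) :
    boxChar θ i j a ∈ IrrC (unitri n F) := by
  classical
  have h0 : boxChar θ i j a = fun g => (rep θ (box i j a) g).trace :=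
    funext fun g => boxChar_eq_trace ha θ hθ g
  rw [h0]
  apply mem_irr_of_matrix
  simp only [← boxChar_eq_trace ha θ hθ]
  unfold boxChar
  have h1 := orbSum_norm θ hθ (box i j a)
  rw [orbF_box_card ha] at h1
  have h2 := cardF_ne (F := F) ((j : ℕ) - i - 1)
  have h3 : ∀ g : unitri n F, ((Nat.card F : ℂ) ^ ((j : ℕ) - i - 1))⁻¹ *
      orbSum θ (box i j a) g * (((Nat.card F : ℂ) ^ ((j : ℕ) - i - 1))⁻¹ *
      orbSum θ (box i j a) g⁻¹) = (((Nat.card F : ℂ) ^ ((j : ℕ) - i - 1))⁻¹) ^ 2 *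
      (orbSum θ (box i j a) g * orbSum θ (box i j a) g⁻¹) := fun g => by ring
  simp only [h3]
  rw [← Finset.mul_sum, h1]
  push_cast
  field_simp

theorem orbSum_eq_boxChar {i j : Fin n} {a : F} (θ : AddChar F ℂ) (g : unitri n F) :
    orbSum θ (box i j a) g = (Nat.card F : ℂ) ^ ((j : ℕ) - i - 1) * boxChar θ i j a g := by
  unfold boxChar
  rw [mul_inv_cancel_left₀ (cardF_ne _)]

theorem constituents_box {i j : Fin n} {a : F} (ha : a ≠ 0) (θ : AddChar F ℂ) (hθ : θ ≠ 1) :
    constituents θ (box i j a) = {boxChar θ i j a} := by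
  classical
  have hirr := boxChar_irr (i := i) (j := j) ha θ hθ
  have h1 : ∀ ψ ∈ IrrC (unitri n F), pair θ (box i j a) ψ =
      (Nat.card F : ℂ) ^ ((j : ℕ) - i - 1) *
        if boxChar θ i j a = ψ then (Fintype.card (unitri n F) : ℂ) else 0 := by
    intro ψ hψ
    unfold pair
    rw [← irr_pair _ ψ hirr hψ, Finset.mul_sum]
    refine Finset.sum_congr rfl fun g _ => ?_
    rw [orbSum_eq_boxChar, mul_assoc]
  ext ψ
  rw [mem_constituents, Set.mem_singleton_iff]
  constructor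
  · rintro ⟨h2, h3⟩
    rw [h1 ψ h2] at h3
    by_contra h4
    rw [if_neg (fun h => h4 h.symm), mul_zero] at h3
    exact h3 rfl
  · rintro rfl
    refine ⟨hirr, ?_⟩
    rw [h1 _ hirr, if_pos rfl]
    exact mul_ne_zero (cardF_ne _) card_ne

end fin

end Pool.Agent.NH53.SC
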