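import Pool.Agent.NH53.SC.Irr

set_option autoImplicit false

/-!
# Supercharacters of the unitriangular group: the number of superclasses
-/

namespace Pool.Agent.NH53.SC
open Pool.Agent.W367.SN

variable {n : ℕ} {F : Type} [Field F]

theorem mem_superclass_self (x : unitri n F) : x ∈ superclass x :=
  ⟨1, 1, (conjN_one _).symm⟩

theorem superclass_symm {x y : unitri n F} (h : y ∈ superclass x) : x ∈ superclass y := by
  obtain ⟨u, v, h⟩ := h
  refine ⟨u⁻¹, v⁻¹, ?_⟩
  rw [h, conjN_conjN, inv_mul_cancel, mul_inv_cancel, conjN_one]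

theorem superclass_trans {x y z : unitri n F} (h : y ∈ superclass x) (h' : z ∈ superclass y) :
    z ∈ superclass x := by
  obtain ⟨u, v, h⟩ := h
  obtain ⟨u', v', h'⟩ := h'
  exact ⟨u' * u, v * v', by rw [h', h, conjN_conjN]⟩

theorem superclass_eq {x y : unitri n F} (h : y ∈ superclass x) : superclass y = superclass x := by
  ext z
  exact ⟨fun h' => superclass_trans h h', fun h' => superclass_trans (superclass_symm h) h'⟩

theorem superclass_one : superclass (1 : unitri n F) = {1} := by
  ext g
  rw [Set.mem_singleton_iff]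
  constructor
  · rintro ⟨u, v, h⟩
    rw [nil_one, map_zero] at h
    exact nil_eq_zero.1 h
  · rintro rfl
    exact mem_superclass_self 1

section fin
variable [Finite F]

theorem orbSum_superclass (θ : AddChar F ℂ) (μ : Module.Dual F (strictUpper n F))
    {x g : unitri n F} (h : g ∈ superclass x) : orbSum θ μ g = orbSum θ μ x := by
  obtain ⟨u, v, h⟩ := h
  exact orbSum_super θ μ _ _ u v h

/-- The superclass as a finite set. -/
noncomputable def supF (x : unitri n F) : Finset (unitri n F) :=
  (Set.toFinite (superclass x)).toFinset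

theorem mem_supF {x y : unitri n F} : y ∈ supF x ↔ y ∈ superclass x :=
  Set.Finite.mem_toFinset _

/-- The dual orbit sums. -/
theorem sum_supF (θ : AddChar F ℂ) {μ ν : Module.Dual F (strictUpper n F)} (h : ν ∈ orb μ)
    (x : unitri n F) :
    ∑ g ∈ supF x, θ (ν (nil g)) = ∑ g ∈ supF x, θ (μ (nil g)) := by
  obtain ⟨u, v, rfl⟩ := h
  refine Finset.sum_bij' (fun g _ => nilEquiv.symm (conjN u v (nil g)))
    (fun g _ => nilEquiv.symm (conjN u⁻¹ v⁻¹ (nil g))) ?_ ?_ ?_ ?_ ?_
  · intro g hg
    rw [mem_supF] at hg ⊢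
    obtain ⟨u', v', hg⟩ := hg
    refine ⟨u * u', v' * v, ?_⟩
    rw [← nilEquiv_apply, Equiv.apply_symm_apply, hg, conjN_conjN]
  · intro g hg
    rw [mem_supF] at hg ⊢
    obtain ⟨u', v', hg⟩ := hg
    refine ⟨u⁻¹ * u', v' * v⁻¹, ?_⟩
    rw [← nilEquiv_apply, Equiv.apply_symm_apply, hg, conjN_conjN]
  · intro g _
    apply nilEquiv.injective
    rw [Equiv.apply_symm_apply, ← nilEquiv_apply, Equiv.apply_symm_apply, conjN_conjN,
      inv_mul_cancel, mul_inv_cancel, conjN_one, nilEquiv_apply]
  · intro g _
    apply nilEquiv.injective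
    rw [Equiv.apply_symm_apply, ← nilEquiv_apply, Equiv.apply_symm_apply, conjN_conjN,
      mul_inv_cancel, inv_mul_cancel, conjN_one, nilEquiv_apply]
  · intro g _
    have h1 : nil (nilEquiv.symm (conjN u v (nil g))) = conjN u v (nil g) := by
      rw [← nilEquiv_apply, Equiv.apply_symm_apply]
    rw [h1]
    rfl

theorem andreX_le_andreK (θ : AddChar F ℂ) (hθ : θ ≠ 1) :
    (andreX (n := n) θ).ncard ≤ (andreK n F).ncard := by
  classical
  have hXfin : (andreX (n := n) θ).Finite := Set.finite_range _
  have hKfin : (andreK n F).Finite := Set.finite_range _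
  have := hXfin.fintype
  have := hKfin.fintype
  have hxr : ∀ B : andreX (n := n) θ, ∃ μ : Module.Dual F (strictUpper n F),
      constituents θ μ = (B : Set (unitri n F → ℂ)) := fun B => B.2
  choose μ hμ using hxr
  have hkr : ∀ k : andreK n F, ∃ x : unitri n F, superclass x = (k : Set (unitri n F)) :=
    fun k => k.2
  choose x hx using hkr
  let f : andreX (n := n) θ → (andreK n F → ℂ) := fun B k => orbSum θ (μ B) (x k)
  have hli : LinearIndependent ℂ f := by
    rw [Fintype.linearIndependent_iff]
    intro a ha B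
    have h1 : ∀ g : unitri n F, ∑ B, a B * orbSum θ (μ B) g = 0 := by
      intro g
      have h2 := congrFun ha ⟨superclass g, g, rfl⟩
      rw [Finset.sum_apply] at h2
      have h3 : ∀ B, (a B • f B) ⟨superclass g, g, rfl⟩ = a B * orbSum θ (μ B) g := by
        intro B
        change a B * orbSum θ (μ B) (x ⟨superclass g, g, rfl⟩) = _
        rw [orbSum_superclass θ (μ B) (x := g)]
        have h4 := hx ⟨superclass g, g, rfl⟩
        change superclass (x ⟨superclass g, g, rfl⟩) = superclass g at h4
        exact (Set.ext_iff.1 h4 _).1 (mem_superclass_self _)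
      simp only [h3] at h2
      exact h2
    obtain ⟨χ, hχ⟩ := constituents_nonempty θ hθ (μ B)
    have hχ' := (mem_constituents θ (μ B) χ).1 hχ
    have h2 : ∑ g, (∑ B, a B * orbSum θ (μ B) g) * χ g⁻¹ = 0 := by
      simp only [h1, zero_mul, Finset.sum_const_zero]
    simp only [Finset.sum_mul] at h2
    rw [Finset.sum_comm] at h2
    have h3 : ∀ B' : andreX (n := n) θ, ∑ g, a B' * orbSum θ (μ B') g * χ g⁻¹ =
        a B' * pair θ (μ B') χ := by
      intro B'
      unfold pair
      rw [Finset.mul_sum]
      refine Finset.sum_congr rfl fun g _ => ?_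
      rw [mul_assoc]
    simp only [h3] at h2
    rw [Finset.sum_eq_single B] at h2
    · exact (mul_eq_zero.1 h2).resolve_right hχ'.2
    · intro B' _ hB'
      by_contra hne
      have h4 : pair θ (μ B') χ ≠ 0 := fun h => hne (by rw [h, mul_zero])
      have h5 := (pair_irr θ hθ hχ'.1).2.2 _ _ h4 hχ'.2
      apply hB'
      apply Subtype.ext
      rw [← hμ B', ← hμ B, constituents_congr θ h5]
    · intro h
      exact absurd (Finset.mem_univ _) h
  have h1 := hli.fintype_card_le_finrank
  rw [Module.finrank_fintype_fun_eq_card] at h1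
  rw [← Nat.card_coe_set_eq, ← Nat.card_coe_set_eq, Nat.card_eq_fintype_card,
    Nat.card_eq_fintype_card]
  exact h1

theorem andreK_le_andreX (θ : AddChar F ℂ) (hθ : θ ≠ 1) :
    (andreK n F).ncard ≤ (andreX (n := n) θ).ncard := by
  classical
  have hXfin : (andreX (n := n) θ).Finite := Set.finite_range _
  have hKfin : (andreK n F).Finite := Set.finite_range _
  have := hXfin.fintype
  have := hKfin.fintype
  have hxr : ∀ B : andreX (n := n) θ, ∃ μ : Module.Dual F (strictUpper n F),
      constituents θ μ = (B : Set (unitri n F → ℂ)) := fun B => B.2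
  choose μ hμ using hxr
  have hkr : ∀ k : andreK n F, ∃ x : unitri n F, superclass x = (k : Set (unitri n F)) :=
    fun k => k.2
  choose x hx using hkr
  let f : andreK n F → (andreX (n := n) θ → ℂ) := fun k B => ∑ g ∈ supF (x k), θ (μ B (nil g))
  have hli : LinearIndependent ℂ f := by
    rw [Fintype.linearIndependent_iff]
    intro a ha k
    have h1 : ∀ ν : Module.Dual F (strictUpper n F),
        ∑ k, a k * ∑ g ∈ supF (x k), θ (ν (nil g)) = 0 := by
      intro ν
      have h2 := congrFun ha ⟨constituents θ ν, ν, rfl⟩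
      rw [Finset.sum_apply] at h2
      have h3 : ∀ k, (a k • f k) ⟨constituents θ ν, ν, rfl⟩ =
          a k * ∑ g ∈ supF (x k), θ (ν (nil g)) := by
        intro k
        change a k * ∑ g ∈ supF (x k), θ (μ ⟨constituents θ ν, ν, rfl⟩ (nil g)) = _
        rw [sum_supF θ (μ := ν)]
        have h4 := hμ ⟨constituents θ ν, ν, rfl⟩
        change constituents θ (μ ⟨constituents θ ν, ν, rfl⟩) = constituents θ ν at h4
        obtain ⟨χ, hχ⟩ := constituents_nonempty θ hθ ν
        have h5 := (mem_constituents θ ν χ).1 hχ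
        rw [← h4] at hχ
        have h6 := (mem_constituents θ _ χ).1 hχ
        exact orb_eq_iff.1 ((pair_irr θ hθ h5.1).2.2 _ _ h6.2 h5.2)
      simp only [h3] at h2
      exact h2
    let A : unitri n F → ℂ := fun g => a ⟨superclass g, g, rfl⟩
    have h2 : ∀ ν : Module.Dual F (strictUpper n F), ∑ g, A g * θ (ν (nil g)) = 0 := by
      intro ν
      rw [← h1 ν]
      have h3 : ∀ k : andreK n F, a k * ∑ g ∈ supF (x k), θ (ν (nil g)) =
          ∑ g, if g ∈ supF (x k) then a k * θ (ν (nil g)) else 0 := by
        intro k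
        rw [Finset.mul_sum, Finset.sum_ite_mem, Finset.univ_inter]
      simp only [h3]
      rw [Finset.sum_comm]
      refine Finset.sum_congr rfl fun g _ => ?_
      rw [Finset.sum_eq_single ⟨superclass g, g, rfl⟩]
      · rw [if_pos]
        rw [mem_supF, hx]
        exact mem_superclass_self g
      · intro k _ hk
        rw [if_neg]
        intro hg
        rw [mem_supF] at hg
        apply hk
        apply Subtype.ext
        change (k : Set (unitri n F)) = superclass g
        rw [superclass_eq hg, hx]
      · intro h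
        exact absurd (Finset.mem_univ _) h
    have h3 : ∀ h : unitri n F, A h = 0 := by
      intro h
      have h4 : ∑ ν : Module.Dual F (strictUpper n F),
          (∑ g, A g * θ (ν (nil g))) * θ (-(ν (nil h))) = 0 := by
        simp only [h2, zero_mul, Finset.sum_const_zero]
      simp only [Finset.sum_mul] at h4
      rw [Finset.sum_comm] at h4
      have h5 : ∀ g : unitri n F, ∑ ν : Module.Dual F (strictUpper n F),
          A g * θ (ν (nil g)) * θ (-(ν (nil h))) =
            if g = h then A g * Fintype.card (Module.Dual F (strictUpper n F)) else 0 := by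
        intro g
        have h6 : ∀ ν : Module.Dual F (strictUpper n F),
            A g * θ (ν (nil g)) * θ (-(ν (nil h))) = A g * θ (ν (nil g - nil h)) := by
          intro ν
          rw [map_sub, sub_eq_add_neg, AddChar.map_add_eq_mul, mul_assoc]
        simp only [h6]
        rw [← Finset.mul_sum]
        split_ifs with h7
        · subst h7
          simp only [sub_self, map_zero, AddChar.map_zero_eq_one, Finset.sum_const,
            Finset.card_univ, nsmul_eq_mul, mul_one]
        · rw [sum_dual θ hθ _ (fun h8 => h7 (nil_inj (sub_eq_zero.1 h8))), mul_zero]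
      simp only [h5, Finset.sum_ite_eq', Finset.mem_univ, if_true] at h4
      exact (mul_eq_zero.1 h4).resolve_right (by exact_mod_cast Fintype.card_ne_zero)
    have h4 := h3 (x k)
    change a ⟨superclass (x k), x k, rfl⟩ = 0 at h4
    rw [← h4]
    congr 1
    apply Subtype.ext
    exact (hx k).symm
  have h1 := hli.fintype_card_le_finrank
  rw [Module.finrank_fintype_fun_eq_card] at h1
  rw [← Nat.card_coe_set_eq, ← Nat.card_coe_set_eq, Nat.card_eq_fintype_card,
    Nat.card_eq_fintype_card]
  exact h1

/-- André's supercharacter theory is a supercharacter theory. -/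
theorem andre_isSuperTheory (θ : AddChar F ℂ) (hθ : θ ≠ 1) :
    IsSuperTheory (andreX (n := n) θ) (andreK n F) where
  block_irr := by
    rintro _ ⟨μ, rfl⟩
    exact ⟨constituents_nonempty θ hθ μ, fun ψ h => h.1⟩
  cover_irr := by
    intro χ hχ
    obtain ⟨μ, hμ⟩ := (pair_irr θ hθ hχ).2.1
    refine ⟨constituents θ μ, ⟨⟨μ, rfl⟩, (mem_constituents θ μ χ).2 ⟨hχ, hμ⟩⟩, ?_⟩
    rintro _ ⟨⟨ν, rfl⟩, hν⟩
    exact constituents_congr θ
      ((pair_irr θ hθ hχ).2.2 _ _ ((mem_constituents θ ν χ).1 hν).2 hμ)
  block_grp := by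
    rintro _ ⟨x, rfl⟩
    exact ⟨x, mem_superclass_self x⟩
  cover_grp := by
    intro g
    refine ⟨superclass g, ⟨⟨g, rfl⟩, mem_superclass_self g⟩, ?_⟩
    rintro _ ⟨⟨x, rfl⟩, hx⟩
    exact (superclass_eq hx).symm
  card_eq := le_antisymm (andreX_le_andreK θ hθ) (andreK_le_andreX θ hθ)
  one_mem := ⟨1, superclass_one⟩
  const := by
    rintro _ ⟨μ, rfl⟩ _ ⟨x, rfl⟩ g hg h hh
    rw [sig_constituents θ hθ, orbSum_superclass θ μ hg, orbSum_superclass θ μ hh]

end fin

end Pool.Agent.NH53.SC
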