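import Pool.Agent.W367.SN.Irr

set_option autoImplicit false

/-!
# Supercharacter theories and the unitriangular group: definitions
-/

namespace Pool.Agent.NH53.SC
open Pool.Agent.W367.SN

/-- The character `σ_B = ∑_{ψ ∈ B} ψ(1) ψ` of a set `B` of (irreducible) characters. -/
noncomputable def sig {G : Type} [Group G] (B : Set (G → ℂ)) (g : G) : ℂ :=
  ∑ᶠ ψ ∈ B, ψ 1 * ψ g

/-- A supercharacter theory (Diaconis-Isaacs) of the finite group `G`: `X` is a partition of
`Irr(G)`, `K` is a partition of `G`, `|X| = |K|`, `{1} ∈ K` and `σ_B` is constant on every block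
of `K` for every block `B` of `X`. -/
structure IsSuperTheory {G : Type} [Group G] (X : Set (Set (G → ℂ))) (K : Set (Set G)) : Prop where
  block_irr : ∀ B ∈ X, B.Nonempty ∧ B ⊆ IrrC G
  cover_irr : ∀ χ ∈ IrrC G, ∃! B, B ∈ X ∧ χ ∈ B
  block_grp : ∀ k ∈ K, k.Nonempty
  cover_grp : ∀ g : G, ∃! k, k ∈ K ∧ g ∈ k
  card_eq : X.ncard = K.ncard
  one_mem : {1} ∈ K
  const : ∀ B ∈ X, ∀ k ∈ K, ∀ g ∈ k, ∀ h ∈ k, sig B g = sig B h

variable (n : ℕ) (F : Type) [Field F]

/-- The strictly upper triangular `n × n` matrices. -/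
def strictUpper : Submodule F (Matrix (Fin n) (Fin n) F) where
  carrier := {x | ∀ i j, j ≤ i → x i j = 0}
  add_mem' := fun {x y} hx hy i j h => by
    rw [Matrix.add_apply, hx i j h, hy i j h, add_zero]
  zero_mem' := fun _ _ _ => rfl
  smul_mem' := fun c x hx i j h => by
    rw [Matrix.smul_apply, hx i j h, smul_zero]

variable {n F}

theorem mem_strictUpper {x : Matrix (Fin n) (Fin n) F} :
    x ∈ strictUpper n F ↔ ∀ i j, j ≤ i → x i j = 0 := Iff.rfl

theorem strictUpper_mul {x y : Matrix (Fin n) (Fin n) F} (hx : x ∈ strictUpper n F)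
    (hy : y ∈ strictUpper n F) : x * y ∈ strictUpper n F := by
  intro i j h
  rw [Matrix.mul_apply]
  refine Finset.sum_eq_zero fun k _ => ?_
  rcases le_or_gt k i with h1 | h1
  · rw [hx i k h1, zero_mul]
  · rw [hy k j (h.trans h1.le), mul_zero]

theorem strictUpper_mul_left {x u : Matrix (Fin n) (Fin n) F} (hx : x ∈ strictUpper n F)
    (hu : u - 1 ∈ strictUpper n F) : u * x ∈ strictUpper n F := by
  have : u * x = (u - 1) * x + x := by rw [sub_mul, one_mul, sub_add_cancel]
  rw [this]
  exact Submodule.add_mem _ (strictUpper_mul hu hx) hx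

theorem strictUpper_mul_right {x u : Matrix (Fin n) (Fin n) F} (hx : x ∈ strictUpper n F)
    (hu : u - 1 ∈ strictUpper n F) : x * u ∈ strictUpper n F := by
  have : x * u = x * (u - 1) + x := by rw [mul_sub, mul_one, sub_add_cancel]
  rw [this]
  exact Submodule.add_mem _ (strictUpper_mul hx hu) hx

theorem strictUpper_pow {x : Matrix (Fin n) (Fin n) F} (hx : x ∈ strictUpper n F) (k : ℕ) :
    ∀ i j : Fin n, (j : ℕ) < i + k → (x ^ k) i j = 0 := by
  induction k with
  | zero =>
    intro i j h
    rw [pow_zero, Matrix.one_apply_ne]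
    rintro rfl
    omega
  | succ k ih =>
    intro i j h
    rw [pow_succ, Matrix.mul_apply]
    refine Finset.sum_eq_zero fun l _ => ?_
    rcases le_or_gt j l with h1 | h1
    · rw [hx l j h1, mul_zero]
    · rw [ih i l (by have : (l : ℕ) < j := h1; omega), zero_mul]

theorem strictUpper_pow_eq {x : Matrix (Fin n) (Fin n) F} (hx : x ∈ strictUpper n F) :
    x ^ n = 0 := by
  ext i j
  exact strictUpper_pow hx n i j (by have := j.2; omega)

theorem isUnit_one_add {x : Matrix (Fin n) (Fin n) F} (hx : x ∈ strictUpper n F) :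
    IsUnit (1 + x) :=
  IsNilpotent.isUnit_one_add ⟨n, strictUpper_pow_eq hx⟩

theorem inv_mem_aux {u v : Matrix (Fin n) (Fin n) F} (hu : u - 1 ∈ strictUpper n F)
    (huv : u * v = 1) : v - 1 ∈ strictUpper n F := by
  -- `v = ∑ (1 - u)^k`
  have hx : 1 - u ∈ strictUpper n F := by
    have := Submodule.neg_mem _ hu
    rwa [neg_sub] at this
  have h1 : (∑ k ∈ Finset.range n, (1 - u) ^ k) * u = 1 := by
    have h2 := geom_sum_mul (1 - u) n
    rw [strictUpper_pow_eq hx] at h2
    have h3 : (1 - u) - 1 = - u := by abel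
    rw [h3, mul_neg, zero_sub, neg_inj] at h2
    exact h2
  have h2 : v = ∑ k ∈ Finset.range n, (1 - u) ^ k := by
    calc v = ((∑ k ∈ Finset.range n, (1 - u) ^ k) * u) * v := by rw [h1, one_mul]
      _ = _ := by rw [mul_assoc, huv, mul_one]
  rcases Nat.eq_zero_or_pos n with h0 | h0
  · subst h0
    intro i
    exact i.elim0
  · obtain ⟨m, rfl⟩ := Nat.exists_eq_succ_of_ne_zero h0.ne'
    rw [h2, Finset.sum_range_succ', pow_zero, add_sub_cancel_right]
    refine Submodule.sum_mem _ fun k hk => ?_
    clear hk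
    rw [pow_succ]
    induction k with
    | zero => rwa [pow_zero, one_mul]
    | succ k ih => rw [pow_succ]; exact strictUpper_mul ih hx

variable (n F)

/-- The group `U_n(F)` of upper unitriangular matrices. -/
def unitri : Subgroup (GL (Fin n) F) where
  carrier := {g | (g : Matrix (Fin n) (Fin n) F) - 1 ∈ strictUpper n F}
  mul_mem' := fun {g h} hg hh => by
    change ((g * h : GL (Fin n) F) : Matrix (Fin n) (Fin n) F) - 1 ∈ strictUpper n F
    rw [Units.val_mul]
    have : (g : Matrix (Fin n) (Fin n) F) * h - 1 = (g - 1) * h + (h - 1) := by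
      rw [sub_mul, one_mul]; abel
    rw [this]
    exact Submodule.add_mem _ (strictUpper_mul_right hg hh) hh
  one_mem' := by
    change ((1 : GL (Fin n) F) : Matrix (Fin n) (Fin n) F) - 1 ∈ strictUpper n F
    rw [Units.val_one, sub_self]
    exact Submodule.zero_mem _
  inv_mem' := fun {g} hg => inv_mem_aux hg (by
    rw [← Units.val_mul, mul_inv_cancel, Units.val_one])

variable {n F}

/-- The strictly upper triangular matrix `g - 1`. -/
def nil (g : unitri n F) : strictUpper n F :=
  ⟨((g : GL (Fin n) F) : Matrix (Fin n) (Fin n) F) - 1, g.2⟩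

/-- The map `y ↦ u y v` on the strictly upper triangular matrices. -/
def conjN (u v : unitri n F) : strictUpper n F →ₗ[F] strictUpper n F where
  toFun := fun y => ⟨((u : GL (Fin n) F) : Matrix (Fin n) (Fin n) F) * y *
      ((v : GL (Fin n) F) : Matrix (Fin n) (Fin n) F),
    strictUpper_mul_right (strictUpper_mul_left y.2 u.2) v.2⟩
  map_add' := fun x y => by
    apply Subtype.ext
    change _ * (_ + _) * _ = _ * _ * _ + _ * _ * _
    rw [mul_add, add_mul]
  map_smul' := fun c x => by
    apply Subtype.ext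
    change _ * (c • _) * _ = c • (_ * _ * _)
    rw [Matrix.mul_smul, Matrix.smul_mul]

/-- The orbit `U μ U` of a functional on the strictly upper triangular matrices under the
two-sided action `(u μ v)(y) = μ (u y v)`. -/
def orb (μ : Module.Dual F (strictUpper n F)) : Set (Module.Dual F (strictUpper n F)) :=
  {ν | ∃ u v : unitri n F, ν = μ ∘ₗ conjN u v}

/-- The function `g ↦ ∑_{ν ∈ U μ U} θ (ν (g - 1))`. -/
noncomputable def orbSum (θ : AddChar F ℂ) (μ : Module.Dual F (strictUpper n F))
    (g : unitri n F) : ℂ :=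
  ∑ᶠ ν ∈ orb μ, θ (ν (nil g))

/-- André's superclass of `x`: the set of all `g` with `g - 1 ∈ U (x - 1) U`. -/
def superclass (x : unitri n F) : Set (unitri n F) :=
  {g | ∃ u v : unitri n F, nil g = conjN u v (nil x)}

variable (n F)

/-- André's partition of `U_n(F)` into superclasses. -/
def andreK : Set (Set (unitri n F)) := Set.range superclass

variable {n F}

/-- The set of the irreducible characters that occur in the supercharacter of `μ`, i.e. which are
not orthogonal to `orbSum θ μ`. -/
def constituents (θ : AddChar F ℂ) (μ : Module.Dual F (strictUpper n F)) :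
    Set (unitri n F → ℂ) :=
  {ψ | ψ ∈ IrrC (unitri n F) ∧ ∑ᶠ g, orbSum θ μ g * ψ g⁻¹ ≠ 0}

/-- André's partition of the irreducible characters of `U_n(F)`. -/
def andreX (θ : AddChar F ℂ) : Set (Set (unitri n F → ℂ)) := Set.range (constituents θ)

/-- The functional `y ↦ a y_{ij}`. -/
def box (i j : Fin n) (a : F) : Module.Dual F (strictUpper n F) where
  toFun := fun y => a * (y : Matrix (Fin n) (Fin n) F) i j
  map_add' := fun x y => by
    change a * (_ + _) = _
    rw [mul_add]
  map_smul' := fun c x => by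
    change a * (c * _) = c * (a * _)
    ring

/-- The single-box character of `U_n(F)`, `|F| = q`: the multiple of the orbit sum of the
functional `y ↦ a y_{ij}` by the positive scalar `q^{-(j-i-1)}`. -/
noncomputable def boxChar (θ : AddChar F ℂ) (i j : Fin n) (a : F) (g : unitri n F) : ℂ :=
  ((Nat.card F : ℂ) ^ ((j : ℕ) - i - 1))⁻¹ * orbSum θ (box i j a) g

end Pool.Agent.NH53.SC
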