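import Pool.Agent.NH53.SC.Basic

set_option autoImplicit false

/-!
# Supercharacters of the unitriangular group: the partition of the irreducible characters
-/

namespace Pool.Agent.NH53.SC
open Pool.Agent.W367.SN

variable {n : ℕ} {F : Type} [Field F] [Finite F]

/-- The pairing of an orbit sum with a function. -/
noncomputable def pair (θ : AddChar F ℂ) (μ : Module.Dual F (strictUpper n F))
    (χ : unitri n F → ℂ) : ℂ := ∑ g, orbSum θ μ g * χ g⁻¹

theorem pair_eq (θ : AddChar F ℂ) (μ : Module.Dual F (strictUpper n F)) (χ : unitri n F → ℂ) :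
    ∑ᶠ g, orbSum θ μ g * χ g⁻¹ = pair θ μ χ := finsum_eq_sum_of_fintype _

theorem pair_congr (θ : AddChar F ℂ) {μ ν : Module.Dual F (strictUpper n F)} (h : orb μ = orb ν)
    (χ : unitri n F → ℂ) : pair θ μ χ = pair θ ν χ := by
  unfold pair
  rw [orbSum_congr θ h]

open Classical in
/-- The convolution of two orbit sums. -/
theorem conv (θ : AddChar F ℂ) (hθ : θ ≠ 1) (μ ν : Module.Dual F (strictUpper n F))
    (h : unitri n F) :
    ∑ g, orbSum θ μ g⁻¹ * orbSum θ ν (h⁻¹ * g) =
      if orb μ = orb ν then (Fintype.card (unitri n F) : ℂ) * orbSum θ ν h⁻¹ else 0 := by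
  have h1 : ∀ g : unitri n F, orbSum θ μ g⁻¹ * orbSum θ ν (h⁻¹ * g) =
      ∑ κ ∈ orbF ν, θ (-(κ (nil h))) * ∑ ι ∈ orbF μ, θ (κ (nil g)) * θ (-(ι (nil g))) := by
    intro g
    rw [orbSum_inv, orbSum_inv_mul, Finset.mul_sum]
    refine Finset.sum_congr rfl fun κ _ => ?_
    rw [Finset.sum_mul, Finset.mul_sum]
    refine Finset.sum_congr rfl fun ι _ => ?_
    ring
  simp only [h1]
  rw [Finset.sum_comm]
  have h2 : ∀ κ : Module.Dual F (strictUpper n F),
      ∑ g : unitri n F, θ (-(κ (nil h))) * ∑ ι ∈ orbF μ, θ (κ (nil g)) * θ (-(ι (nil g))) =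
        θ (-(κ (nil h))) * ∑ ι ∈ orbF μ,
          if κ = ι then (Fintype.card (unitri n F) : ℂ) else 0 := by
    intro κ
    rw [← Finset.mul_sum, Finset.sum_comm]
    congr 1
    refine Finset.sum_congr rfl fun ι _ => ?_
    exact sum_theta_mul θ hθ κ ι
  simp only [h2, Finset.sum_ite_eq]
  split_ifs with hc
  · rw [orbSum_inv, Finset.mul_sum]
    refine Finset.sum_congr rfl fun κ hκ => ?_
    rw [if_pos, mul_comm]
    rw [mem_orbF] at hκ ⊢
    rw [hc]
    exact hκ
  · refine Finset.sum_eq_zero fun κ hκ => ?_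
    rw [if_neg, mul_zero]
    intro hκ'
    rw [mem_orbF] at hκ hκ'
    exact hc ((orb_eq hκ').symm.trans (orb_eq hκ))

/-- The pairing of an orbit sum with an irreducible character is `0` or `|G| χ(1)`, and it is
nonzero for exactly one orbit. -/
theorem pair_irr (θ : AddChar F ℂ) (hθ : θ ≠ 1) {χ : unitri n F → ℂ}
    (hχ : χ ∈ IrrC (unitri n F)) :
    (∀ μ : Module.Dual F (strictUpper n F), pair θ μ χ = 0 ∨
      pair θ μ χ = Fintype.card (unitri n F) * χ 1) ∧
    (∃ μ : Module.Dual F (strictUpper n F), pair θ μ χ ≠ 0) ∧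
    ∀ μ ν : Module.Dual F (strictUpper n F), pair θ μ χ ≠ 0 → pair θ ν χ ≠ 0 →
      orb μ = orb ν := by
  classical
  obtain ⟨m, hm, ρ, hρ, hS⟩ := exists_matrix hχ
  have : Nonempty (Fin m) := ⟨⟨0, hm⟩⟩
  let E : Module.Dual F (strictUpper n F) → Matrix (Fin m) (Fin m) ℂ :=
    fun μ => ∑ g, orbSum θ μ g⁻¹ • ρ g
  have hcomm : ∀ μ u, E μ * ρ u = ρ u * E μ := by
    intro μ u
    have h1 : ρ u * E μ * ρ u⁻¹ = E μ := by
      change ρ u * (∑ g, orbSum θ μ g⁻¹ • ρ g) * ρ u⁻¹ = ∑ g, orbSum θ μ g⁻¹ • ρ g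
      rw [Finset.mul_sum, Finset.sum_mul]
      refine Fintype.sum_equiv (MulAut.conj u).toEquiv _ _ fun g => ?_
      change _ = orbSum θ μ (u * g * u⁻¹)⁻¹ • ρ (u * g * u⁻¹)
      have h2 : (u * g * u⁻¹)⁻¹ = u * g⁻¹ * u⁻¹ := by group
      rw [h2, orbSum_conj, map_mul, map_mul, Matrix.mul_smul, Matrix.smul_mul]
    calc E μ * ρ u = (ρ u * E μ * ρ u⁻¹) * ρ u := by rw [h1]
      _ = ρ u * E μ * (ρ u⁻¹ * ρ u) := by rw [mul_assoc]
      _ = ρ u * E μ := by rw [← map_mul, inv_mul_cancel, map_one, mul_one]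
  choose c hc using fun μ => hS (E μ) (hcomm μ)
  have hpair : ∀ μ, pair θ μ χ = c μ * m := by
    intro μ
    have h1 : (E μ).trace = pair θ μ χ := by
      change Matrix.trace (∑ g, orbSum θ μ g⁻¹ • ρ g) = _
      rw [Matrix.trace_sum]
      unfold pair
      refine Fintype.sum_equiv (Equiv.inv _) _ _ fun g => ?_
      rw [Matrix.trace_smul, Equiv.inv_apply, inv_inv, smul_eq_mul, hρ]
    rw [← h1, hc, Matrix.trace_smul, Matrix.trace_one, Fintype.card_fin, smul_eq_mul]
  have hm0 : (m : ℂ) ≠ 0 := by exact_mod_cast hm.ne'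
  have hχ1 : χ 1 = m := by
    rw [hρ, map_one, Matrix.trace_one, Fintype.card_fin]
  have hprod : ∀ μ ν, E μ * E ν =
      if orb μ = orb ν then (Fintype.card (unitri n F) : ℂ) • E ν else 0 := by
    intro μ ν
    have h1 : E μ * E ν = ∑ h, (∑ g, orbSum θ μ g⁻¹ * orbSum θ ν (h⁻¹ * g)) • ρ h := by
      change (∑ g, orbSum θ μ g⁻¹ • ρ g) * (∑ g, orbSum θ ν g⁻¹ • ρ g) = _
      rw [Finset.sum_mul]
      have h2 : ∀ g : unitri n F, (orbSum θ μ g⁻¹ • ρ g) * (∑ g, orbSum θ ν g⁻¹ • ρ g) =
          ∑ h, (orbSum θ μ g⁻¹ * orbSum θ ν (h⁻¹ * g)) • ρ h := by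
        intro g
        rw [Finset.mul_sum]
        refine Fintype.sum_equiv (Equiv.mulLeft g) _ _ fun g' => ?_
        rw [Equiv.coe_mulLeft, Matrix.smul_mul, Matrix.mul_smul, smul_smul, map_mul]
        have h3 : (g * g')⁻¹ * g = g'⁻¹ := by group
        rw [h3]
      simp only [h2]
      rw [Finset.sum_comm]
      refine Finset.sum_congr rfl fun h _ => ?_
      rw [Finset.sum_smul]
    rw [h1]
    simp only [conv θ hθ]
    split_ifs with hc
    · change _ = _ • (∑ g, orbSum θ ν g⁻¹ • ρ g)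
      rw [Finset.smul_sum]
      refine Finset.sum_congr rfl fun g _ => ?_
      rw [smul_smul]
    · simp only [zero_smul, Finset.sum_const_zero]
  have hcprod : ∀ μ ν, c μ * c ν =
      if orb μ = orb ν then (Fintype.card (unitri n F) : ℂ) * c ν else 0 := by
    intro μ ν
    have h1 := congrArg (fun M : Matrix (Fin m) (Fin m) ℂ => M ⟨0, hm⟩ ⟨0, hm⟩) (hprod μ ν)
    simp only [hc] at h1
    split_ifs at h1 ⊢ with h2
    · rw [Matrix.smul_mul, one_mul, Matrix.smul_apply, Matrix.smul_apply, Matrix.smul_apply,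
        Matrix.smul_apply, Matrix.one_apply_eq] at h1
      simpa only [smul_eq_mul, mul_one] using h1
    · rw [Matrix.smul_mul, one_mul, Matrix.smul_apply, Matrix.smul_apply, Matrix.one_apply_eq,
        Matrix.zero_apply] at h1
      simpa only [smul_eq_mul, mul_one] using h1
  have hG : (Fintype.card (unitri n F) : ℂ) ≠ 0 := by
    exact_mod_cast Fintype.card_ne_zero
  refine ⟨?_, ?_, ?_⟩
  · intro μ
    have h1 := hcprod μ μ
    rw [if_pos rfl] at h1
    rcases eq_or_ne (c μ) 0 with h2 | h2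
    · left
      rw [hpair, h2, zero_mul]
    · right
      rw [hpair, hχ1, mul_right_cancel₀ h2 h1]
  · by_contra hcon
    push Not at hcon
    have h0 : ∀ μ, c μ = 0 := by
      intro μ
      have := hcon μ
      rw [hpair] at this
      exact (mul_eq_zero.1 this).resolve_right hm0
    have h1 : ∑ μ : Module.Dual F (strictUpper n F), ((orbF μ).card : ℂ)⁻¹ • E μ = 0 := by
      refine Finset.sum_eq_zero fun μ _ => ?_
      rw [hc, h0, zero_smul, smul_zero]
    have h2 : ∑ μ : Module.Dual F (strictUpper n F), ((orbF μ).card : ℂ)⁻¹ • E μ =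
        (Fintype.card (Module.Dual F (strictUpper n F)) : ℂ) • 1 := by
      change ∑ μ : Module.Dual F (strictUpper n F),
        ((orbF μ).card : ℂ)⁻¹ • (∑ g, orbSum θ μ g⁻¹ • ρ g) = _
      simp only [Finset.smul_sum, smul_smul]
      rw [Finset.sum_comm]
      simp only [← Finset.sum_smul]
      have h3 : ∀ g : unitri n F, ∑ μ : Module.Dual F (strictUpper n F),
          ((orbF μ).card : ℂ)⁻¹ * orbSum θ μ g⁻¹ =
            if g = 1 then (Fintype.card (Module.Dual F (strictUpper n F)) : ℂ) else 0 := by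
        intro g
        rw [sum_orbSum θ hθ]
        simp only [inv_eq_one]
      simp only [h3, ite_smul, zero_smul, Finset.sum_ite_eq', Finset.mem_univ, if_true, map_one]
    rw [h1] at h2
    have h3 := congrArg (fun M : Matrix (Fin m) (Fin m) ℂ => M ⟨0, hm⟩ ⟨0, hm⟩) h2
    simp only [Matrix.zero_apply, Matrix.smul_apply, Matrix.one_apply_eq, smul_eq_mul,
      mul_one] at h3
    exact Fintype.card_ne_zero (α := Module.Dual F (strictUpper n F)) (by exact_mod_cast h3.symm)
  · intro μ ν h1 h2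
    by_contra h3
    have h4 := hcprod μ ν
    rw [if_neg h3] at h4
    rw [hpair] at h1 h2
    rcases mul_eq_zero.1 h4 with h5 | h5
    · exact h1 (by rw [h5, zero_mul])
    · exact h2 (by rw [h5, zero_mul])

theorem mem_constituents (θ : AddChar F ℂ) (μ : Module.Dual F (strictUpper n F))
    (ψ : unitri n F → ℂ) :
    ψ ∈ constituents θ μ ↔ ψ ∈ IrrC (unitri n F) ∧ pair θ μ ψ ≠ 0 := by
  unfold constituents
  change ψ ∈ IrrC (unitri n F) ∧ _ ↔ _
  rw [pair_eq]

theorem constituents_congr (θ : AddChar F ℂ) {μ ν : Module.Dual F (strictUpper n F)}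
    (h : orb μ = orb ν) : constituents θ μ = constituents θ ν := by
  ext ψ
  rw [mem_constituents, mem_constituents, pair_congr θ h]

theorem irr_pair (χ ψ : unitri n F → ℂ) (hχ : χ ∈ IrrC (unitri n F))
    (hψ : ψ ∈ IrrC (unitri n F)) :
    ∑ g, χ g * ψ g⁻¹ = open Classical in
      if χ = ψ then (Fintype.card (unitri n F) : ℂ) else 0 := by
  classical
  split_ifs with h
  · subst h
    exact irr_norm hχ
  · exact irr_orth hχ hψ h

/-- A sum over a set of irreducible characters is orthogonal to the others. -/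
theorem sig_pair (B : Set (unitri n F → ℂ)) (hB : B ⊆ IrrC (unitri n F)) (χ : unitri n F → ℂ)
    (hχ : χ ∈ IrrC (unitri n F)) :
    ∑ g, sig B g * χ g⁻¹ = open Classical in
      if χ ∈ B then (Fintype.card (unitri n F) : ℂ) * χ 1 else 0 := by
  classical
  have hfin : B.Finite := irr_finite.subset hB
  have h1 : ∀ g, sig B g = ∑ ψ ∈ hfin.toFinset, ψ 1 * ψ g := by
    intro g
    unfold sig
    exact finsum_mem_eq_finite_toFinset_sum _ _
  simp only [h1, Finset.sum_mul]
  rw [Finset.sum_comm]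
  have h2 : ∀ ψ ∈ hfin.toFinset, ∑ g, ψ 1 * ψ g * χ g⁻¹ =
      if χ = ψ then (Fintype.card (unitri n F) : ℂ) * χ 1 else 0 := by
    intro ψ hψ
    have hψ' : ψ ∈ IrrC (unitri n F) := hB ((Set.Finite.mem_toFinset _).1 hψ)
    have h3 := irr_pair ψ χ hψ' hχ
    have h4 : ∀ g, ψ 1 * ψ g * χ g⁻¹ = ψ 1 * (ψ g * χ g⁻¹) := fun g => mul_assoc _ _ _
    simp only [h4]
    rw [← Finset.mul_sum, h3]
    by_cases h5 : χ = ψ
    · subst h5
      rw [if_pos rfl, if_pos rfl, mul_comm]
    · rw [if_neg h5, if_neg (fun h => h5 h.symm), mul_zero]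
  rw [Finset.sum_congr rfl h2, Finset.sum_ite_eq]
  simp only [Set.Finite.mem_toFinset]

/-- The orbit sum is the supercharacter `∑ ψ(1) ψ`, the sum over the constituents. -/
theorem sig_constituents (θ : AddChar F ℂ) (hθ : θ ≠ 1) (μ : Module.Dual F (strictUpper n F)) :
    sig (constituents θ μ) = orbSum θ μ := by
  classical
  have hsub : constituents θ μ ⊆ IrrC (unitri n F) := fun ψ h => h.1
  have hfin : (constituents θ μ).Finite := irr_finite.subset hsub
  have h0 : (fun g => sig (constituents θ μ) g - orbSum θ μ g) = 0 := by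
    apply irr_complete
    · intro g u
      rw [orbSum_conj]
      congr 1
      unfold sig
      refine finsum_mem_congr rfl fun ψ hψ => ?_
      rw [irr_class (hsub hψ)]
    · intro χ hχ
      simp only [sub_mul, Finset.sum_sub_distrib]
      rw [sig_pair _ hsub χ hχ]
      change _ - pair θ μ χ = 0
      rcases (pair_irr θ hθ hχ).1 μ with h1 | h1
      · rw [if_neg, h1, sub_zero]
        intro h2
        exact ((mem_constituents θ μ χ).1 h2).2 h1
      · rw [if_pos, h1, sub_self]
        rw [mem_constituents]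
        refine ⟨hχ, ?_⟩
        rw [h1]
        exact mul_ne_zero (by exact_mod_cast Fintype.card_ne_zero) (irr_one_ne hχ)
  funext g
  exact sub_eq_zero.1 (congrFun h0 g)

theorem constituents_nonempty (θ : AddChar F ℂ) (hθ : θ ≠ 1)
    (μ : Module.Dual F (strictUpper n F)) : (constituents θ μ).Nonempty := by
  by_contra h
  rw [Set.not_nonempty_iff_eq_empty] at h
  have h1 := congrFun (sig_constituents θ hθ μ) 1
  rw [h, orbSum_eq] at h1
  unfold sig at h1
  rw [finsum_mem_empty] at h1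
  simp only [nil_one, map_zero, AddChar.map_zero_eq_one, Finset.sum_const, nsmul_eq_mul,
    mul_one] at h1
  exact orbF_card_ne μ h1.symm

end Pool.Agent.NH53.SC
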