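import Pool.Agent.NH53.SC.Count

set_option autoImplicit false

/-!
# Normal forms of the superclasses of the unitriangular group
-/

namespace Pool.Agent.NH53.SC

variable {n : ℕ} {F : Type} [Field F]

/-- Every row and every column contains at most one nonzero entry. -/
def IsNormal (z : Matrix (Fin n) (Fin n) F) : Prop :=
  (∀ i j j', z i j ≠ 0 → z i j' ≠ 0 → j = j') ∧ ∀ i i' j, z i j ≠ 0 → z i' j ≠ 0 → i = i'

open Classical in
/-- The number of nonzero entries of a row. -/
noncomputable def rowCount (z : Matrix (Fin n) (Fin n) F) (p : Fin n) : ℕ :=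
  (Finset.univ.filter fun q => z p q ≠ 0).card

theorem rowCount_le (z : Matrix (Fin n) (Fin n) F) (p : Fin n) : rowCount z p ≤ n := by
  classical
  have := Finset.card_filter_le (Finset.univ : Finset (Fin n)) (fun q => z p q ≠ 0)
  rw [Finset.card_univ, Fintype.card_fin] at this
  unfold rowCount
  convert this

/-- The measure that is minimal for normal forms. -/
noncomputable def wt (z : Matrix (Fin n) (Fin n) F) : ℕ :=
  ∑ p : Fin n, rowCount z p * (n + 1) ^ (p : ℕ)

theorem sum_pow_lt (i : Fin n) (f : Fin n → ℕ) (hf : ∀ p, f p ≤ n) :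
    ∑ p ∈ Finset.univ.filter (fun p : Fin n => p < i), f p * (n + 1) ^ (p : ℕ) <
      (n + 1) ^ (i : ℕ) := by
  have h1 : ∑ p ∈ Finset.univ.filter (fun p : Fin n => p < i), f p * (n + 1) ^ (p : ℕ) ≤
      ∑ k ∈ Finset.range (i : ℕ), n * (n + 1) ^ k := by
    have h2 : ∑ p ∈ Finset.univ.filter (fun p : Fin n => p < i), f p * (n + 1) ^ (p : ℕ) ≤
        ∑ p ∈ Finset.univ.filter (fun p : Fin n => p < i), n * (n + 1) ^ (p : ℕ) :=
      Finset.sum_le_sum fun p _ => Nat.mul_le_mul_right _ (hf p)
    refine h2.trans ?_
    have h3 : ∑ p ∈ Finset.univ.filter (fun p : Fin n => p < i), n * (n + 1) ^ (p : ℕ) =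
        ∑ k ∈ (Finset.univ.filter (fun p : Fin n => p < i)).image (fun p : Fin n => (p : ℕ)),
          n * (n + 1) ^ k := by
      rw [Finset.sum_image]
      intro a _ b _ h
      exact Fin.ext h
    rw [h3]
    apply Finset.sum_le_sum_of_subset
    intro k hk
    rw [Finset.mem_image] at hk
    obtain ⟨p, hp, rfl⟩ := hk
    rw [Finset.mem_filter] at hp
    exact Finset.mem_range.2 hp.2
  refine lt_of_le_of_lt h1 ?_
  have h4 : ∀ m : ℕ, ∑ k ∈ Finset.range m, n * (n + 1) ^ k + 1 = (n + 1) ^ m := by
    intro m
    induction m with
    | zero => simp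
    | succ m ih =>
      rw [Finset.sum_range_succ, pow_succ]
      nlinarith [ih]
  have := h4 i
  omega

theorem wt_lt {z z' : Matrix (Fin n) (Fin n) F} (i : Fin n)
    (h1 : ∀ p, i < p → rowCount z' p = rowCount z p) (h2 : rowCount z' i < rowCount z i) :
    wt z' < wt z := by
  classical
  have hsplit : ∀ y : Matrix (Fin n) (Fin n) F, wt y =
      ∑ p ∈ Finset.univ.filter (fun p : Fin n => p < i), rowCount y p * (n + 1) ^ (p : ℕ) +
      (rowCount y i * (n + 1) ^ (i : ℕ) +
      ∑ p ∈ Finset.univ.filter (fun p : Fin n => i < p), rowCount y p * (n + 1) ^ (p : ℕ)) := by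
    intro y
    unfold wt
    rw [← Finset.sum_filter_add_sum_filter_not Finset.univ (fun p : Fin n => p < i)]
    congr 1
    have h3 : (Finset.univ.filter fun p : Fin n => ¬ p < i) =
        insert i (Finset.univ.filter fun p : Fin n => i < p) := by
      ext p
      simp only [Finset.mem_filter, Finset.mem_univ, true_and, Finset.mem_insert, not_lt]
      rw [le_iff_eq_or_lt, eq_comm]
    rw [h3, Finset.sum_insert]
    simp
  rw [hsplit z, hsplit z']
  have h3 : ∑ p ∈ Finset.univ.filter (fun p : Fin n => i < p),
      rowCount z' p * (n + 1) ^ (p : ℕ) =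
      ∑ p ∈ Finset.univ.filter (fun p : Fin n => i < p), rowCount z p * (n + 1) ^ (p : ℕ) := by
    refine Finset.sum_congr rfl fun p hp => ?_
    rw [h1 p (Finset.mem_filter.1 hp).2]
  rw [h3]
  have h4 := sum_pow_lt i (rowCount z') (rowCount_le z')
  have h5 : rowCount z' i * (n + 1) ^ (i : ℕ) + (n + 1) ^ (i : ℕ) ≤
      rowCount z i * (n + 1) ^ (i : ℕ) := by
    rw [← Nat.succ_mul]
    exact Nat.mul_le_mul_right _ h2
  omega

/-- The elementary matrix `1 + c E_{ri}`, `r < i`. -/
noncomputable def tv {r i : Fin n} (h : r < i) (c : F) : unitri n F :=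
  nilEquiv.symm ⟨Matrix.single r i c, by
    intro a b hab
    rw [Matrix.single_apply]
    split_ifs with h1
    · obtain ⟨rfl, rfl⟩ := h1
      exact absurd h (not_lt.2 hab)
    · rfl⟩

theorem tv_val {r i : Fin n} (h : r < i) (c : F) :
    ((tv h c : GL (Fin n) F) : Matrix (Fin n) (Fin n) F) = Matrix.transvection r i c := by
  have h1 : nil (tv h c) = _ := nilEquiv.apply_symm_apply _
  have h2 := congrArg Subtype.val h1
  change ((tv h c : GL (Fin n) F) : Matrix (Fin n) (Fin n) F) - 1 = Matrix.single r i c at h2
  rw [sub_eq_iff_eq_add] at h2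
  rw [h2, Matrix.transvection, add_comm]

theorem rowOp {r i : Fin n} (h : r < i) (c : F) (y : strictUpper n F) (p q : Fin n) :
    (conjN (tv h c) 1 y : Matrix (Fin n) (Fin n) F) p q =
      if p = r then (y : Matrix (Fin n) (Fin n) F) r q + c * (y : Matrix (Fin n) (Fin n) F) i q
      else (y : Matrix (Fin n) (Fin n) F) p q := by
  rw [conjN_val, tv_val, Subgroup.coe_one, Units.val_one, mul_one]
  split_ifs with h1
  · subst h1
    exact Matrix.transvection_mul_apply_same _ _ _ _ _
  · exact Matrix.transvection_mul_apply_of_ne _ _ _ _ h1 _ _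

theorem colOp {r i : Fin n} (h : r < i) (c : F) (y : strictUpper n F) (p q : Fin n) :
    (conjN 1 (tv h c) y : Matrix (Fin n) (Fin n) F) p q =
      if q = i then (y : Matrix (Fin n) (Fin n) F) p i + c * (y : Matrix (Fin n) (Fin n) F) p r
      else (y : Matrix (Fin n) (Fin n) F) p q := by
  rw [conjN_val, tv_val, Subgroup.coe_one, Units.val_one, one_mul]
  split_ifs with h1
  · subst h1
    exact Matrix.mul_transvection_apply_same _ _ _ _ _
  · exact Matrix.mul_transvection_apply_of_ne _ _ _ _ h1 _ _

/-- Every two-sided orbit contains a normal form. -/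
theorem exists_normal (x : strictUpper n F) :
    ∃ u v : unitri n F, IsNormal (conjN u v x : Matrix (Fin n) (Fin n) F) := by
  classical
  -- a minimal element of the orbit
  let S : Set ℕ := {k | ∃ u v : unitri n F, wt (conjN u v x : Matrix (Fin n) (Fin n) F) = k}
  have hS : S.Nonempty := ⟨_, 1, 1, rfl⟩
  obtain ⟨u, v, huv⟩ := Nat.sInf_mem hS
  refine ⟨u, v, ?_⟩
  set y := conjN u v x with hy
  have hmin : ∀ u' v' : unitri n F, ¬ wt (conjN u' v' y : Matrix (Fin n) (Fin n) F) <
      wt (y : Matrix (Fin n) (Fin n) F) := by
    intro u' v' hlt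
    have h1 : wt (conjN u' v' y : Matrix (Fin n) (Fin n) F) ∈ S := by
      rw [hy, conjN_conjN]
      exact ⟨_, _, rfl⟩
    have h2 := Nat.sInf_le h1
    rw [← huv] at h2
    exact absurd hlt (not_lt.2 h2)
  -- the claim for all rows, from the bottom to the top
  have key : ∀ i : Fin n,
      (∀ j j', (y : Matrix (Fin n) (Fin n) F) i j ≠ 0 →
        (y : Matrix (Fin n) (Fin n) F) i j' ≠ 0 → j = j') ∧
      ∀ r j, r < i → (y : Matrix (Fin n) (Fin n) F) i j ≠ 0 →
        (y : Matrix (Fin n) (Fin n) F) r j = 0 := by
    have main : ∀ m : ℕ, ∀ i : Fin n, (i : ℕ) + m + 1 = n →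
        (∀ j j', (y : Matrix (Fin n) (Fin n) F) i j ≠ 0 →
          (y : Matrix (Fin n) (Fin n) F) i j' ≠ 0 → j = j') ∧
        ∀ r j, r < i → (y : Matrix (Fin n) (Fin n) F) i j ≠ 0 →
          (y : Matrix (Fin n) (Fin n) F) r j = 0 := by
      intro m
      induction m using Nat.strong_induction_on with
      | _ m ih =>
        intro i him
        have hlow : ∀ p : Fin n, i < p → ∀ r j, r < p →
            (y : Matrix (Fin n) (Fin n) F) p j ≠ 0 →
            (y : Matrix (Fin n) (Fin n) F) r j = 0 := by
          intro p hp
          have hp' : (i : ℕ) < p := hp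
          have hpn := p.2
          exact (ih (n - 1 - p) (by omega) p (by omega)).2
        have hrow : ∀ j j', j < j' → (y : Matrix (Fin n) (Fin n) F) i j ≠ 0 →
            (y : Matrix (Fin n) (Fin n) F) i j' ≠ 0 → False := by
          intro j j' hjj' h1 h2
          let c : F := - ((y : Matrix (Fin n) (Fin n) F) i j' / (y : Matrix (Fin n) (Fin n) F) i j)
          apply hmin 1 (tv hjj' c)
          apply wt_lt i
          · intro p hp
            have h3 : (y : Matrix (Fin n) (Fin n) F) p j = 0 := by
              by_contra h4
              exact h1 (hlow p hp i j hp h4)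
            unfold rowCount
            congr 1
            ext q
            simp only [Finset.mem_filter, Finset.mem_univ, true_and]
            rw [colOp]
            split_ifs with h4
            · subst h4
              rw [h3, mul_zero, add_zero]
            · rfl
          · unfold rowCount
            apply Finset.card_lt_card
            rw [Finset.ssubset_iff_of_subset]
            · refine ⟨j', ?_, ?_⟩
              · simp only [Finset.mem_filter, Finset.mem_univ, true_and]
                exact h2
              · simp only [Finset.mem_filter, Finset.mem_univ, true_and, not_not]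
                rw [colOp, if_pos rfl]
                change _ + - (_ / _) * _ = (0 : F)
                rw [neg_mul, div_mul_cancel₀ _ h1, add_neg_cancel]
            · intro q
              simp only [Finset.mem_filter, Finset.mem_univ, true_and]
              rw [colOp]
              split_ifs with h4
              · subst h4
                intro _
                exact h2
              · exact id
        have hrow' : ∀ j j', (y : Matrix (Fin n) (Fin n) F) i j ≠ 0 →
            (y : Matrix (Fin n) (Fin n) F) i j' ≠ 0 → j = j' := by
          intro j j' h1 h2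
          rcases lt_trichotomy j j' with h | h | h
          · exact (hrow j j' h h1 h2).elim
          · exact h
          · exact (hrow j' j h h2 h1).elim
        refine ⟨hrow', ?_⟩
        intro r j hr h1
        by_contra h2
        let c : F := - ((y : Matrix (Fin n) (Fin n) F) r j / (y : Matrix (Fin n) (Fin n) F) i j)
        apply hmin (tv hr c) 1
        apply wt_lt r
        · intro p hp
          unfold rowCount
          congr 1
          ext q
          simp only [Finset.mem_filter, Finset.mem_univ, true_and]
          rw [rowOp, if_neg hp.ne']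
        · unfold rowCount
          apply Finset.card_lt_card
          rw [Finset.ssubset_iff_of_subset]
          · refine ⟨j, ?_, ?_⟩
            · simp only [Finset.mem_filter, Finset.mem_univ, true_and]
              exact h2
            · simp only [Finset.mem_filter, Finset.mem_univ, true_and, not_not]
              rw [rowOp, if_pos rfl]
              change _ + - (_ / _) * _ = (0 : F)
              rw [neg_mul, div_mul_cancel₀ _ h1, add_neg_cancel]
          · intro q
            simp only [Finset.mem_filter, Finset.mem_univ, true_and]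
            rw [rowOp, if_pos rfl]
            intro h3
            by_cases h4 : q = j
            · subst h4
              exact h2
            · have h5 : (y : Matrix (Fin n) (Fin n) F) i q = 0 := by
                by_contra h6
                exact h4 (hrow' q j h6 h1)
              rwa [h5, mul_zero, add_zero] at h3
    intro i
    have hi := i.2
    exact main (n - 1 - i) i (by omega)
  refine ⟨fun i => (key i).1, ?_⟩
  intro i i' j h1 h2
  rcases lt_trichotomy i i' with h | h | h
  · exact absurd ((key i').2 i j h h2) h1
  · exact h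
  · exact absurd ((key i).2 i' j h h1) h2

end Pool.Agent.NH53.SC
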